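import Pool.Agent.H804.US.SDefs

/-!
# Metrics with Hopf symmetry on real projective spaces: definitions

A metric on `ℝP^N = S^N / ±1`, `N = 2 n`, `4 n` or `16`, invariant under `U(n)`, `Sp(n)Sp(1)` or `Spin(9)`,
is a metric `dr² + f(r)² g_V + h(r)² g_H`, `0 ≤ r ≤ L`, on `S^N` (see `IsProfileUS`) that is invariant
under the antipodal map.  The antipodal map sends the point at distance `r` from the first pole in direction
`z` to the point at distance `L - r` in direction `-z`, so the condition is that `f` and `h` are symmetric
about `L / 2`.  The non-contractible closed geodesics of `ℝP^N` of length `T` are the images of the unit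
speed geodesics `γ` of `S^N` with `γ(t + T) = -γ(t)`.
-/

open Real Set MeasureTheory
open scoped ContDiff

namespace H804RP

open H738CP H804US

/-- The pairs of profile functions of smooth antipodally invariant metrics `dr² + f(r)² g_V + h(r)² g_H` on
`S^N`, i.e. of metrics on `ℝP^N`. -/
structure IsProfileRP (L : ℝ) (f h : ℝ → ℝ) : Prop where
  us : IsProfileUS L f h
  fsym : ∀ r, f (L - r) = f r
  hsym : ∀ r, h (L - r) = h r

/-- The antipodal map in extended coordinates. -/
theorem spt_anti {n : ℕ} {L : ℝ} (hL : 0 < L) (r : ℝ) (z : EuclideanSpace ℂ (Fin n)) :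
    spt L (L - r) (-z) = -spt L r z := by
  unfold spt
  have e : π * (L - r) / L = π - π * r / L := by
    field_simp
  rw [e, Real.sin_pi_sub, Real.cos_pi_sub, smul_neg]
  rfl

end H804RP
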