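import Pool.Agent.H804.RP.Cr
import Pool.Agent.H804.RP.GP

/-!
# The action bound for metrics on real projective spaces
-/

open Real Set MeasureTheory Filter Topology
open scoped ContDiff
open Pool.Agent.H206R2.Rot2 (Veff well actW)
open Pool.Agent.H206R2
open H738CP

namespace H804RP.Act

open H804US (IsProfileUS IsGeodesicUS spt)
open H804US.Mn (RegD Dd isOpen_RegD actW_nonneg veff_lt)

/-- The angular velocities. -/
theorem angle {L : ℝ} {f h : ℝ → ℝ} (hf : IsProfileRP L f h) {r : ℝ → ℝ} {T : ℝ}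
    (hr : ContDiff ℝ 2 r) (hpos : ∀ t, 0 < r t ∧ r t < L) (hrT : ∀ t, r (t + T) = L - r t)
    (c d : ℝ) :
    ∃ θ : ℝ → ℝ, ContDiff ℝ 2 θ ∧ (∀ t, deriv θ t = c / f (r t) ^ 2 + d / h (r t) ^ 2) ∧
      ∀ t, θ (t + T) = θ t + ((∫ s in (0 : ℝ)..T, c / f (r s) ^ 2) +
        ∫ s in (0 : ℝ)..T, d / h (r s) ^ 2) := by
  have hsm : ∀ g : ℝ → ℝ, ContDiff ℝ ∞ g → (∀ t, g (r t) ≠ 0) → ∀ c : ℝ,
      ContDiff ℝ 1 fun t => c / g (r t) ^ 2 := by
    intro g hg hg0 c
    have hgr : ContDiff ℝ 1 fun t => g (r t) :=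
      (hg.of_le (by exact_mod_cast le_top)).comp (hr.of_le (by norm_num))
    exact contDiff_const.div (hgr.pow 2) fun t => pow_ne_zero 2 (hg0 t)
  have h1 := hsm f hf.us.pf.smooth (fun t => (hf.us.pf.fpos _ (hpos t).1 (hpos t).2).ne') c
  have h2 := hsm h hf.us.ph.smooth (fun t => (hf.us.ph.fpos _ (hpos t).1 (hpos t).2).ne') d
  obtain ⟨θ, k1, k2, k3⟩ := Os.angle0 (T := T) (h1.add h2) (fun t => by
    simp only [hrT, hf.fsym, hf.hsym])
  refine ⟨θ, k1, k2, fun t => ?_⟩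
  rw [k3]
  congr 1
  exact intervalIntegral.integral_add (h1.continuous.intervalIntegrable _ _)
    (h2.continuous.intervalIntegrable _ _)

/-- The derivative of a symmetric function at the midpoint. -/
theorem deriv_mid {L : ℝ} {g : ℝ → ℝ} (hs : ∀ r, g (L - r) = g r) : deriv g (L / 2) = 0 := by
  have h1 : (fun r => g (L - r)) = g := funext hs
  have h2 := deriv_comp_const_sub (f := g) L (L / 2)
  rw [h1, show L - L / 2 = L / 2 by ring] at h2
  linarith

/-- The meridian. -/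
theorem meridian {L : ℝ} (f h : ℝ → ℝ) (hL : 0 < L) {n : ℕ} (hn : 2 ≤ n) :
    ∃ γ : ℝ → EuclideanSpace ℂ (Fin n) × ℝ, IsGeodesicUS L f h 1 γ ∧ ∀ t, γ (t + L) = -γ t := by
  obtain ⟨e, he⟩ : ∃ e : EuclideanSpace ℂ (Fin n), ‖e‖ = 1 :=
    ⟨EuclideanSpace.single ⟨0, by omega⟩ 1, by simp⟩
  have hh : ∀ t, hopf (fun _ : ℝ => e) t = 0 := by
    intro t
    unfold hopf
    simp
  have hho : ∀ t, hor (fun _ : ℝ => e) t = 0 := by
    intro t
    unfold hor
    rw [hh]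
    simp
  have hho' : hor (fun _ : ℝ => e) = fun _ => 0 := funext hho
  refine ⟨fun t => spt L t e, ⟨fun t => t, fun _ => e, contDiff_id, contDiff_const,
    fun _ => he, fun _ => rfl, ?_, ⟨0, ?_⟩, ?_, ?_⟩, ?_⟩
  · intro t
    rw [hh, hho]
    simp
  · intro t
    rw [hh, mul_zero]
  · intro t
    rw [hho', hh]
    simp
  · intro t
    rw [hh, hho]
    simp
  · intro t
    show spt L (t + L) e = -spt L t e
    unfold spt
    have : π * (t + L) / L = π * t / L + π := by field_simp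
    rw [this, Real.sin_add_pi, Real.cos_add_pi]
    ext1
    · simp
    · simp

theorem hno_eq {L : ℝ} {f h : ℝ → ℝ} (hf : IsProfileRP L f h) {n : ℕ} (hn : 2 ≤ n) :
    (∃ γ : ℝ → EuclideanSpace ℂ (Fin n) × ℝ, IsGeodesicUS L f h 1 γ ∧
      ∀ t, γ (t + π * f (L / 2)) = -γ t) ∧
    ∃ γ : ℝ → EuclideanSpace ℂ (Fin n) × ℝ, IsGeodesicUS L f h 1 γ ∧
      ∀ t, γ (t + π * h (L / 2)) = -γ t := by
  have hL := hf.us.pf.pos
  have h0 : 0 < L / 2 := by linarith
  have h1 : L / 2 < L := by linarith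
  have hF := hf.us.pf.fpos _ h0 h1
  have hH := hf.us.ph.fpos _ h0 h1
  have dF := deriv_mid hf.fsym
  have dH := deriv_mid hf.hsym
  have hθ : ∀ c t : ℝ, HasDerivAt (fun t : ℝ => t * c) c t := fun c t => by
    simpa using (hasDerivAt_id t).mul_const c
  have hdc : ∀ t, deriv (deriv (fun _ : ℝ => L / 2)) t = 0 := fun t => by simp
  have hdc' : ∀ t, deriv (fun _ : ℝ => L / 2) t = 0 := fun t => by simp
  constructor
  · refine GP.geodesic_of_planarRP hf.us hn (r := fun _ => L / 2)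
      (θ₁ := fun t => t * (1 / f (L / 2)))
      (θ₂ := fun t => t * (f (L / 2) / f (L / 2) ^ 2 - (f (L / 2) + f (L / 2)) / h (L / 2) ^ 2))
      (P := f (L / 2)) (Q := 0) (J := f (L / 2))
      hF.le le_rfl hF (by simp [Real.sqrt_sq hF.le])
      contDiff_const (contDiff_id.mul contDiff_const) (contDiff_id.mul contDiff_const)
      (fun _ => ⟨h0, h1⟩) ?_ ?_ ?_ ?_ (fun _ => by ring) ?_ (Or.inl rfl)
    · intro t
      rw [hdc]
      simp [dF]
    · intro t
      rw [(hθ _ t).deriv]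
      field_simp
      ring
    · intro t
      rw [(hθ _ t).deriv]
    · intro t
      rw [hdc']
      unfold Veff
      field_simp
      ring
    · intro t
      field_simp
  · refine GP.geodesic_of_planarRP hf.us hn (r := fun _ => L / 2)
      (θ₁ := fun t => t * (1 / h (L / 2)))
      (θ₂ := fun t => t * (-1 / h (L / 2)))
      (P := 0) (Q := h (L / 2)) (J := h (L / 2))
      le_rfl hH.le hH (by simp [Real.sqrt_sq hH.le])
      contDiff_const (contDiff_id.mul contDiff_const) (contDiff_id.mul contDiff_const)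
      (fun _ => ⟨h0, h1⟩) ?_ ?_ ?_ ?_ (fun _ => by ring) ?_ (Or.inr ?_)
    · intro t
      rw [hdc]
      simp [dH]
    · intro t
      rw [(hθ _ t).deriv]
      field_simp
      ring
    · intro t
      rw [(hθ _ t).deriv]
      field_simp
      ring
    · intro t
      rw [hdc']
      unfold Veff
      field_simp
      ring
    · intro t
      field_simp
    · intro t
      field_simp
      ring

theorem edge_f {L : ℝ} {f h : ℝ → ℝ} (hf : IsProfileRP L f h) {n : ℕ} (hn : 2 ≤ n) {R : ℝ}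
    (hR : 0 < R)
    (hno : ∀ (γ : ℝ → EuclideanSpace ℂ (Fin n) × ℝ) (T : ℝ), 0 < T →
      IsGeodesicUS L f h 1 γ → (∀ t, γ (t + T) = -γ t) → π * R < T)
    (hL : π * R < L) (hfs : R < f (L / 2)) : ∀ c ∈ RegD R, 0 ≤ Dd L R f f (L / 2) c := by
  have hLpos := hf.us.pf.pos
  by_contra hcon
  push Not at hcon
  obtain ⟨c, hc, hc12, hneg, hmin⟩ := Mn.exists_min_self hf.us.pf hR hL (by linarith)
    (by linarith) hfs hcon
  obtain ⟨r, T, hT, hTlt, hr, hpos, hr2, hr1, hrT, hI, -⟩ :=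
    Cr.crit (f := f) (h := f) ⟨⟨hf.us.pf, hf.us.pf⟩, hf.fsym, hf.fsym⟩ hR hfs hfs hc hneg hmin
  set J := √(c.1 ^ 2 + c.2 ^ 2) with hJ
  have hc1 := hc.1
  have hJ2 : J ^ 2 = c.1 ^ 2 + c.2 ^ 2 := Real.sq_sqrt (by positivity)
  have hJ0 : 0 < J := Real.sqrt_pos.2 (by positivity)
  have hfp : ∀ t, f (r t) ≠ 0 := fun t => (hf.us.pf.fpos _ (hpos t).1 (hpos t).2).ne'
  have hIJ : ∫ t in (0 : ℝ)..T, J / f (r t) ^ 2 = π := by
    have e : ∀ t, J / f (r t) ^ 2 = (J / c.1) * (c.1 / f (r t) ^ 2) := by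
      intro t
      have := hfp t
      field_simp
    simp only [e]
    rw [intervalIntegral.integral_const_mul, hI]
    field_simp
  obtain ⟨θ₁, a1, a2, a3⟩ := angle hf hr hpos hrT J 0
  obtain ⟨θ₂, b1, b2, b3⟩ := angle hf hr hpos hrT J (-(2 * J))
  obtain ⟨γ, hγ, hper⟩ := GP.geodesic_of_planarRP hf.us hn (P := J) (Q := 0) (J := J) (T := T)
    hJ0.le le_rfl hJ0 (by simp [Real.sqrt_sq hJ0.le]) hr a1 b1 hpos (fun t => by
      rw [hr2]
      have := hfp t
      simp only [zero_div, ne_eq, OfNat.ofNat_ne_zero, not_false_eq_true, zero_pow, mul_zero,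
        add_zero]
      rw [div_pow J, hJ2]
      field_simp)
    (fun t => by rw [a2]; ring) (fun t => by rw [b2]; ring)
    (fun t => by
      rw [← hr1 t, Mn.veff_self, ← hJ2]
      unfold Veff
      rw [div_pow]
      simp) hrT
    (fun t => by
      rw [a3, hIJ]
      simp) (Or.inl rfl)
  exact absurd (hno γ T hT hγ hper) (not_lt.2 hTlt.le)

theorem edge_h {L : ℝ} {f h : ℝ → ℝ} (hf : IsProfileRP L f h) {n : ℕ} (hn : 2 ≤ n) {R : ℝ}
    (hR : 0 < R)
    (hno : ∀ (γ : ℝ → EuclideanSpace ℂ (Fin n) × ℝ) (T : ℝ), 0 < T →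
      IsGeodesicUS L f h 1 γ → (∀ t, γ (t + T) = -γ t) → π * R < T)
    (hL : π * R < L) (hhs : R < h (L / 2)) : ∀ c ∈ RegD R, 0 ≤ Dd L R h h (L / 2) c := by
  have hLpos := hf.us.pf.pos
  by_contra hcon
  push Not at hcon
  obtain ⟨c, hc, hc12, hneg, hmin⟩ := Mn.exists_min_self hf.us.ph hR hL (by linarith)
    (by linarith) hhs hcon
  obtain ⟨r, T, hT, hTlt, hr, hpos, hr2, hr1, hrT, hI, -⟩ :=
    Cr.crit (f := h) (h := h) ⟨⟨hf.us.ph, hf.us.ph⟩, hf.hsym, hf.hsym⟩ hR hhs hhs hc hneg hmin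
  set J := √(c.1 ^ 2 + c.2 ^ 2) with hJ
  have hc1 := hc.1
  have hJ2 : J ^ 2 = c.1 ^ 2 + c.2 ^ 2 := Real.sq_sqrt (by positivity)
  have hJ0 : 0 < J := Real.sqrt_pos.2 (by positivity)
  have hhp : ∀ t, h (r t) ≠ 0 := fun t => (hf.us.ph.fpos _ (hpos t).1 (hpos t).2).ne'
  have hIJ : ∀ d : ℝ, ∫ t in (0 : ℝ)..T, d / h (r t) ^ 2 = π * (d / J) := by
    intro d
    have e : ∀ t, d / h (r t) ^ 2 = (d / c.1) * (c.1 / h (r t) ^ 2) := by
      intro t
      have := hhp t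
      field_simp
    simp only [e]
    rw [intervalIntegral.integral_const_mul, hI]
    field_simp
  obtain ⟨θ₁, a1, a2, a3⟩ := angle hf hr hpos hrT 0 J
  obtain ⟨θ₂, b1, b2, b3⟩ := angle hf hr hpos hrT 0 (-J)
  obtain ⟨γ, hγ, hper⟩ := GP.geodesic_of_planarRP hf.us hn (P := 0) (Q := J) (J := J) (T := T)
    le_rfl hJ0.le hJ0 (by simp [Real.sqrt_sq hJ0.le]) hr a1 b1 hpos (fun t => by
      rw [hr2]
      have := hhp t
      simp only [zero_div, ne_eq, OfNat.ofNat_ne_zero, not_false_eq_true, zero_pow, mul_zero,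
        zero_add]
      rw [div_pow J, hJ2]
      field_simp)
    (fun t => by rw [a2]; ring) (fun t => by rw [b2]; ring)
    (fun t => by
      rw [← hr1 t, Mn.veff_self, ← hJ2]
      unfold Veff
      rw [div_pow J]
      simp) hrT
    (fun t => by
      rw [a3, hIJ, div_self hJ0.ne']
      simp) (Or.inr fun t => by
      rw [b3, hIJ, neg_div, div_self hJ0.ne']
      simp
      ring)
  exact absurd (hno γ T hT hγ hper) (not_lt.2 hTlt.le)

/-- If all half-turn geodesics are longer than `π R`, the action of the middle well is at least that of the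
round metric of radius `R`. -/
theorem defect_bound {L : ℝ} {f h : ℝ → ℝ} (hf : IsProfileRP L f h) {n : ℕ} (hn : 2 ≤ n) {R : ℝ}
    (hR : 0 < R)
    (hno : ∀ (γ : ℝ → EuclideanSpace ℂ (Fin n) × ℝ) (T : ℝ), 0 < T →
      IsGeodesicUS L f h 1 γ → (∀ t, γ (t + T) = -γ t) → π * R < T) :
    π * R < L ∧ R < f (L / 2) ∧ R < h (L / 2) ∧ (∀ c ∈ RegD R, 0 ≤ Dd L R f f (L / 2) c) ∧
    ∀ c ∈ RegD R, 0 ≤ Dd L R f h (L / 2) c := by
  have hLpos := hf.us.pf.pos
  have hpi := Real.pi_pos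
  have h0 : 0 < L / 2 := by linarith
  have h1 : L / 2 < L := by linarith
  have hL : π * R < L := by
    obtain ⟨γ, k1, k2⟩ := meridian f h hLpos hn
    exact hno γ L hLpos k1 k2
  obtain ⟨⟨γ₁, g1, g1'⟩, ⟨γ₂, g2, g2'⟩⟩ := hno_eq hf hn
  have hF := hf.us.pf.fpos _ h0 h1
  have hH := hf.us.ph.fpos _ h0 h1
  have hfs : R < f (L / 2) := lt_of_mul_lt_mul_left (hno γ₁ _ (by positivity) g1 g1') hpi.le
  have hhs : R < h (L / 2) := lt_of_mul_lt_mul_left (hno γ₂ _ (by positivity) g2 g2') hpi.le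
  refine ⟨hL, hfs, hhs, edge_f hf hn hR hno hL hfs, ?_⟩
  by_contra hcon
  push Not at hcon
  obtain ⟨c, hc, hneg, hmin⟩ := Mn.exists_min hf.us hR hL h0 h1 hfs hhs
    (edge_f hf hn hR hno hL hfs) (edge_h hf hn hR hno hL hhs) hcon
  obtain ⟨r, T, hT, hTlt, hr, hpos, hr2, hr1, hrT, hA1, hA2⟩ := Cr.crit hf hR hfs hhs hc hneg hmin
  set J := √(c.1 ^ 2 + c.2 ^ 2) with hJ
  have hc1 := hc.1
  have hc2 := hc.2.1
  have hJ0 : 0 < J := Real.sqrt_pos.2 (by positivity)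
  have hhp : ∀ t, h (r t) ≠ 0 := fun t => (hf.us.ph.fpos _ (hpos t).1 (hpos t).2).ne'
  have hA3 : ∀ d : ℝ, ∫ t in (0 : ℝ)..T, d / h (r t) ^ 2 = π * (d / J) := by
    intro d
    have e : ∀ t, d / h (r t) ^ 2 = (d / c.2) * (c.2 / h (r t) ^ 2) := by
      intro t
      have := hhp t
      field_simp
    simp only [e]
    rw [intervalIntegral.integral_const_mul, hA2]
    field_simp
  obtain ⟨θ₁, hθ₁, hθ₁d, hθ₁T⟩ := angle hf hr hpos hrT c.1 (J - c.1)
  obtain ⟨θ₂, hθ₂, hθ₂d, hθ₂T⟩ := angle hf hr hpos hrT c.1 (-(J + c.1))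
  obtain ⟨γ, hγ, hper⟩ := GP.geodesic_of_planarRP hf.us hn (P := c.1) (Q := c.2) (J := J) (T := T)
    hc1.le hc2.le hJ0 hJ hr hθ₁ hθ₂ hpos hr2
    (fun t => hθ₁d t) (fun t => by rw [hθ₂d t]; ring) hr1 hrT
    (fun t => by
      rw [hθ₁T, hA1, hA3]
      field_simp
      ring)
    (Or.inr (fun t => by
      rw [hθ₂T, hA1, hA3]
      field_simp
      ring))
  exact absurd (hno γ T hT hγ hper) (not_lt.2 hTlt.le)

/-- If all half-turn geodesics are longer than `π R`, the radial action is at least that of the round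
metric of radius `R`. -/
theorem action_bound {L : ℝ} {f h : ℝ → ℝ} (hf : IsProfileRP L f h) {n : ℕ} (hn : 2 ≤ n) {R : ℝ}
    (hR : 0 < R)
    (hno : ∀ (γ : ℝ → EuclideanSpace ℂ (Fin n) × ℝ) (T : ℝ), 0 < T →
      IsGeodesicUS L f h 1 γ → (∀ t, γ (t + T) = -γ t) → π * R < T) :
    π * R < L ∧ R < f (L / 2) ∧ R < h (L / 2) ∧
    ∀ c ∈ RegD R, 2 * π * (R - √(c.1 ^ 2 + c.2 ^ 2)) ≤
      2 * ∫ r in Ioo 0 L, √(1 - Veff f h c.1 c.2 r) := by
  obtain ⟨h1, h2, h3, -, h4⟩ := defect_bound hf hn hR hno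
  refine ⟨h1, h2, h3, fun c hc => ?_⟩
  have k1 := h4 c hc
  have k2 := H804US.Act.actW_le hf.us c.1 c.2 (L / 2)
  unfold Dd at k1
  linarith

end H804RP.Act
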