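import Pool.Graph.R_seed8.H206R2.Rot2.TH
import Pool.Graph.R_seed8.H206R2.Rot2.Pre

/-!
# The oscillation in a symmetric well: half a period is the reflection
-/

open Real Set MeasureTheory
open scoped ContDiff Topology

namespace H804RP.Os

open Pool.Agent.H206R2.Rot.TF
open Pool.Agent.H206R2.Rot2.TH (factor1 cov1)

lemma half_per {F : ℝ → ℝ} (hF : Continuous F) (hper : ∀ φ, F (φ + π) = F φ) :
    ∫ φ in (0 : ℝ)..(2 * π), F φ = 2 * ∫ φ in (0 : ℝ)..π, F φ := by
  have hp : Function.Periodic F π := hper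
  have h1 := hp.intervalIntegral_add_eq π 0
  rw [zero_add] at h1
  have h2 := intervalIntegral.integral_add_adjacent_intervals (hF.intervalIntegrable 0 π)
    (hF.intervalIntegrable (μ := volume) π (π + π))
  rw [show 2 * π = π + π by ring, ← h2, h1]
  ring

/-- The angle function of a periodic angular velocity. -/
lemma angle0 {F : ℝ → ℝ} {T : ℝ} (hF1 : ContDiff ℝ 1 F) (hper : ∀ t, F (t + T) = F t) :
    ∃ θ : ℝ → ℝ, ContDiff ℝ 2 θ ∧ (∀ t, deriv θ t = F t) ∧
      ∀ t, θ (t + T) = θ t + ∫ s in (0 : ℝ)..T, F s := by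
  have hFc : Continuous F := hF1.continuous
  have hd : ∀ t, HasDerivAt (fun t => ∫ s in (0 : ℝ)..t, F s) (F t) t := fun t =>
    intervalIntegral.integral_hasDerivAt_right (hFc.intervalIntegrable _ _)
      (hFc.stronglyMeasurableAtFilter _ _) hFc.continuousAt
  have hder : deriv (fun t => ∫ s in (0 : ℝ)..t, F s) = F := funext fun t => (hd t).deriv
  refine ⟨fun t => ∫ s in (0 : ℝ)..t, F s, ?_, fun t => (hd t).deriv, fun t => ?_⟩
  · rw [show (2 : WithTop ℕ∞) = 1 + 1 by norm_num, contDiff_succ_iff_deriv]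
    refine ⟨fun t => (hd t).differentiableAt, by simp, ?_⟩
    rw [hder]; exact hF1
  · have hper' : Function.Periodic F T := hper
    have h1 := hper'.intervalIntegral_add_eq t 0
    simp only [zero_add] at h1
    change ∫ s in (0 : ℝ)..(t + T), F s = (∫ s in (0 : ℝ)..t, F s) + ∫ s in (0 : ℝ)..T, F s
    rw [← h1, intervalIntegral.integral_add_adjacent_intervals (hFc.intervalIntegrable _ _)
      (hFc.intervalIntegrable _ _)]

/-- The oscillation `r'² = 1 - V(r)` in a well with regular endpoints that is symmetric about `L / 2`. -/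
theorem oscillator_sym {L : ℝ} {V : ℝ → ℝ} {p q : ℝ} (hp : 0 < p) (hpq : p < q) (hq : q < L)
    (hV : ContDiffOn ℝ ∞ V (Ioo 0 L)) (hVp : V p = 1) (hVq : V q = 1)
    (hp' : deriv V p < 0) (hq' : 0 < deriv V q) (hin : ∀ x ∈ Ioo p q, V x < 1)
    (hqp : q = L - p) (hVs : ∀ x ∈ Ioo 0 L, V (L - x) = V x) :
    ∃ (r : ℝ → ℝ) (T : ℝ), 0 < T ∧ T = ∫ x in Ioo p q, 1 / √(1 - V x) ∧ ContDiff ℝ 2 r ∧
      (∀ t, p ≤ r t ∧ r t ≤ q) ∧ (∀ t, deriv (deriv r) t = -deriv V (r t) / 2) ∧
      (∀ t, deriv r t ^ 2 = 1 - V (r t)) ∧ (∀ t, r (t + T) = L - r t) ∧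
      (∀ g : ℝ → ℝ, ContinuousOn g (Icc p q) → (∀ x ∈ Icc p q, g (L - x) = g x) →
        ∫ t in (0 : ℝ)..T, g (r t) = ∫ x in Ioo p q, g x / √(1 - V x)) := by
  obtain ⟨k, hkc, hk, hkpos⟩ := factor1 hp hpq hq hV hVp hVq hp' hq' hin
  have hsub : Icc p q ⊆ Ioo 0 L := fun x hx => ⟨by linarith [hx.1], by linarith [hx.2]⟩
  -- symmetry of `k`
  have hks0 : ∀ x ∈ Ioo p q, k (L - x) = k x := by
    intro x hx
    have h1 := hk x ⟨hx.1.le, hx.2.le⟩
    have h2 := hk (L - x) ⟨by linarith [hx.2], by linarith [hx.1]⟩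
    rw [hVs x (hsub ⟨hx.1.le, hx.2.le⟩), h1, hqp] at h2
    have h3 : 0 < (x - p) * (L - p - x) := mul_pos (by linarith [hx.1]) (by linarith [hx.2])
    have h4 : (x - p) * (L - p - x) * (k (L - x) - k x) = 0 := by linear_combination -h2
    rcases mul_eq_zero.1 h4 with h5 | h5
    · exact absurd h5 h3.ne'
    · linarith
  have hks : ∀ x ∈ Icc p q, k (L - x) = k x := by
    have hcl : closure (Ioo p q) = Icc p q := closure_Ioo hpq.ne
    have h1 : IsClosed {x | k (L - x) = k x} :=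
      isClosed_eq (hkc.comp (continuous_const.sub continuous_id)) hkc
    intro x hx
    rw [← hcl] at hx
    exact closure_minimal (s := Ioo p q) (fun y hy => hks0 y hy) h1 hx
  have hVd : ∀ x ∈ Ioo 0 L, DifferentiableAt ℝ V x := fun x hx =>
    (hV.differentiableOn (by simp)).differentiableAt (isOpen_Ioo.mem_nhds hx)
  have hV'c : ContinuousOn (deriv V) (Ioo 0 L) :=
    hV.continuousOn_deriv_of_isOpen isOpen_Ioo (by simp)
  set X : ℝ → ℝ := fun φ => (p + q) / 2 + (q - p) / 2 * sin φ with hX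
  have hXI : ∀ φ, X φ ∈ Icc p q := by
    intro φ
    have h1 := Real.neg_one_le_sin φ
    have h2 := Real.sin_le_one φ
    simp only [hX]
    constructor <;> nlinarith
  have hXs : ∀ φ, X (φ + π) = L - X φ := by
    intro φ
    simp only [hX, Real.sin_add_pi]
    rw [hqp]
    ring
  have hXc : Continuous X := by fun_prop
  have hkX : ∀ φ, 0 < √(k (X φ)) := fun φ => Real.sqrt_pos.2 (hkpos _ (hXI φ))
  set W : ℝ → ℝ := fun φ => 1 / √(k (X φ)) with hWdef
  have hWc : Continuous W := by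
    refine continuous_const.div (Real.continuous_sqrt.comp (hkc.comp hXc)) ?_
    intro φ
    exact (hkX φ).ne'
  have hWpos : ∀ φ, 0 < W φ := fun φ => div_pos one_pos (hkX φ)
  have hWper : ∀ φ, W (φ + π) = W φ := by
    intro φ
    simp only [hWdef, hXs, hks _ (hXI φ)]
  obtain ⟨v₀, hv₀, hWv⟩ : ∃ v₀ : ℝ, 0 < v₀ ∧ ∀ φ, v₀ ≤ W φ := by
    have hcon : ContinuousOn (fun x => 1 / √(k x)) (Icc p q) := by
      refine ContinuousOn.div continuousOn_const (Real.continuous_sqrt.comp hkc).continuousOn ?_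
      intro x hx
      exact (Real.sqrt_pos.2 (hkpos x hx)).ne'
    obtain ⟨x₀, hx₀, hmin⟩ := isCompact_Icc.exists_isMinOn (nonempty_Icc.2 hpq.le) hcon
    refine ⟨1 / √(k x₀), div_pos one_pos (Real.sqrt_pos.2 (hkpos x₀ hx₀)), ?_⟩
    intro φ
    exact hmin (hXI φ)
  obtain ⟨τ, ϕ, hτd, hτ0, hϕτ, hτϕ, hϕd, hτs, hϕs⟩ := clock hWc hv₀ hWv hWper
  set T := ∫ y in (0 : ℝ)..π, W y with hT
  have hTpos : 0 < T := by
    have h1 : ∫ _ in (0 : ℝ)..π, v₀ ≤ ∫ y in (0 : ℝ)..π, W y :=
      intervalIntegral.integral_mono_on (by positivity) (by simp) (hWc.intervalIntegrable _ _)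
        (fun y _ => hWv y)
    rw [intervalIntegral.integral_const, smul_eq_mul, sub_zero] at h1
    have : 0 < π * v₀ := by positivity
    linarith
  have hϕc : Continuous ϕ := continuous_iff_continuousAt.2 fun t => (hϕd t).continuousAt
  -- the radial function
  set r : ℝ → ℝ := fun t => X (ϕ t) with hr
  set A := (q - p) / 2 with hA
  have hA0 : 0 < A := by rw [hA]; linarith
  set pt : ℝ → ℝ := fun t => A * cos (ϕ t) * (W (ϕ t))⁻¹ with hpt
  have hrc : Continuous r := hXc.comp hϕc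
  have hptc : Continuous pt := by
    refine ((continuous_const.mul (Real.continuous_cos.comp hϕc))).mul ?_
    exact (hWc.comp hϕc).inv₀ (fun t => (hWpos _).ne')
  have hrd : ∀ t, HasDerivAt r (pt t) t := by
    intro t
    have h1 := (((Real.hasDerivAt_sin (ϕ t)).comp t (hϕd t)).const_mul A).const_add ((p + q) / 2)
    have h2 : A * (cos (ϕ t) * (W (ϕ t))⁻¹) = pt t := by simp only [hpt]; ring
    rw [h2] at h1
    exact h1
  have hrI : ∀ t, r t ∈ Icc p q := fun t => hXI (ϕ t)
  have hrL : ∀ t, r t ∈ Ioo 0 L := fun t => hsub (hrI t)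
  have hE : ∀ t, pt t ^ 2 = 1 - V (r t) := by
    intro t
    have h1 : 1 - V (X (ϕ t)) = (A * cos (ϕ t)) ^ 2 * k (X (ϕ t)) := by
      rw [hk _ (hXI _)]
      congr 1
      simp only [hX, hA]
      have := Real.sin_sq_add_cos_sq (ϕ t)
      have h3 : cos (ϕ t) ^ 2 = 1 - sin (ϕ t) ^ 2 := by linarith
      rw [mul_pow, h3]
      ring
    have h2 : √(k (X (ϕ t))) ^ 2 = k (X (ϕ t)) := Real.sq_sqrt (hkpos _ (hXI _)).le
    have h4 : pt t = A * cos (ϕ t) * √(k (X (ϕ t))) := by
      simp only [hpt, hWdef]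
      rw [one_div, inv_inv]
    rw [h4, mul_pow, h2]
    exact h1.symm
  set K : ℝ → ℝ := fun t => -deriv V (r t) / 2 with hK
  have hKc : Continuous K :=
    ((hV'c.comp_continuous hrc hrL).neg).div_const 2
  have hEd : ∀ t, HasDerivAt (fun t => 1 - V (r t)) (-(deriv V (r t) * pt t)) t := by
    intro t
    exact ((hVd _ (hrL t)).hasDerivAt.comp t (hrd t)).const_sub 1
  have hptd0 : ∀ t, pt t ≠ 0 → HasDerivAt pt (K t) t := by
    intro t ht
    have h1 := hasDerivAt_root hptc hE (hEd t) ht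
    have h2 : -(deriv V (r t) * pt t) / (2 * pt t) = K t := by
      simp only [hK]
      field_simp
    rw [h2] at h1
    exact h1
  have hcount : {t | pt t = 0}.Countable := by
    have h1 : {t | pt t = 0} ⊆ ϕ ⁻¹' (range fun n : ℤ => (2 * (n : ℝ) + 1) * π / 2) := by
      intro t ht
      have ht' : A * cos (ϕ t) * (W (ϕ t))⁻¹ = 0 := ht
      have h2 : cos (ϕ t) = 0 := by
        rcases mul_eq_zero.1 ht' with h | h
        · rcases mul_eq_zero.1 h with h | h
          · exact absurd h hA0.ne'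
          · exact h
        · exact absurd h (inv_ne_zero (hWpos _).ne')
      obtain ⟨n, hn⟩ := Real.cos_eq_zero_iff.1 h2
      exact ⟨n, hn.symm⟩
    refine Set.Countable.mono h1 ?_
    refine (countable_range _).preimage_of_injOn ?_
    intro x _ y _ hxy
    rw [← hτϕ x, ← hτϕ y, hxy]
  have hFTC : ∀ t, ∫ s in (0 : ℝ)..t, K s = pt t - pt 0 := by
    intro t
    refine integral_eq_of_hasDerivAt_off_countable pt K hcount hptc.continuousOn ?_
      (hKc.intervalIntegrable _ _)
    intro x hx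
    exact hptd0 x hx.2
  have hptd : ∀ t, HasDerivAt pt (K t) t := by
    intro t
    have h1 : HasDerivAt (fun t => pt 0 + ∫ s in (0 : ℝ)..t, K s) (K t) t :=
      (intervalIntegral.integral_hasDerivAt_right (hKc.intervalIntegrable _ _)
        (hKc.stronglyMeasurableAtFilter _ _) hKc.continuousAt).const_add _
    refine h1.congr_of_eventuallyEq (Filter.Eventually.of_forall fun s => ?_)
    show pt s = pt 0 + ∫ s in (0 : ℝ)..s, K s
    rw [hFTC]
    ring
  have hr2 : ContDiff ℝ 2 r := contDiff_two_of hrd hptd hKc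
  have er : deriv r = pt := funext fun t => (hrd t).deriv
  have ept : deriv pt = K := funext fun t => (hptd t).deriv
  -- periods
  have hτP : τ π = T := by
    have := hτs 0
    rw [zero_add, hτ0, zero_add] at this
    exact this
  refine ⟨r, T, hTpos, ?_, hr2, ?_, ?_, ?_, ?_, ?_⟩
  · have h1 := cov1 hpq hkc hk hkpos (G := fun _ => 1) continuous_const
    have h2 := half_per hWc hWper
    have h3 : ∫ φ in (0 : ℝ)..(2 * π), W φ = 2 * ∫ x in Ioo p q, 1 / √(1 - V x) := h1.symm
    linarith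
  · intro t
    exact hrI t
  · intro t
    rw [er, ept]
  · intro t
    rw [er, hE]
  · intro t
    simp only [hr, hϕs, hXs]
  · intro g hg hgs
    have hgX : Continuous fun φ : ℝ => g (X φ) := hg.comp_continuous hXc hXI
    have hgr : Continuous fun t : ℝ => g (r t) := hg.comp_continuous hrc hrI
    have h2 : ∫ φ in (0 : ℝ)..π, ((fun t => g (r t)) ∘ τ) φ * W φ =
        ∫ s in τ 0..τ π, g (r s) :=
      intervalIntegral.integral_comp_mul_deriv (fun x _ => hτd x) hWc.continuousOn hgr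
    rw [hτ0, hτP] at h2
    have h3 := cov1 hpq hkc hk hkpos (G := g) hgX
    have h4 : ∫ φ in (0 : ℝ)..(2 * π), g (X φ) * W φ = 2 * ∫ φ in (0 : ℝ)..π, g (X φ) * W φ := by
      refine half_per (hgX.mul hWc) fun φ => ?_
      rw [hWper, hXs, hgs _ (hXI φ)]
    have h5 : ∫ φ in (0 : ℝ)..π, ((fun t => g (r t)) ∘ τ) φ * W φ =
        ∫ φ in (0 : ℝ)..π, g (X φ) * W φ := by
      refine intervalIntegral.integral_congr ?_
      intro φ _
      simp only [Function.comp_apply, hr, hϕτ]
    have h6 : ∫ φ in (0 : ℝ)..(2 * π), g (X φ) * W φ =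
        ∫ φ in (0 : ℝ)..(2 * π), g ((p + q) / 2 + (q - p) / 2 * sin φ) /
          √(k ((p + q) / 2 + (q - p) / 2 * sin φ)) := by
      refine intervalIntegral.integral_congr ?_
      intro φ _
      simp only [hWdef, hX]
      ring
    rw [← h2, h5]
    rw [h6, ← h3] at h4
    linarith

end H804RP.Os
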