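import Pool.Agent.H804.US.Mn
import Pool.Agent.H804.RP.Os

/-!
# Minimising the action defect in the symmetric case
-/

open Real Set MeasureTheory Filter Topology
open scoped ContDiff
open Pool.Agent.H206R2.Rot2 (Veff well actW)
open Pool.Agent.H206R2
open H738CP

namespace H804RP.Mn

open H804US.Mn (RegD Dd isOpen_RegD actW_nonneg veff_lt)

/-- The limit of a minimising sequence of the action defect over a part `S` of the quarter disc. -/
theorem min_seq {L : ℝ} {f h : ℝ → ℝ} (hP : Pair L f h) {R s₀ : ℝ} (S : Set (ℝ × ℝ))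
    (hS : S ⊆ RegD R) (hneg : ∃ c ∈ S, Dd L R f h s₀ c < 0) :
    ∃ c₀ ∈ closure S, 0 ≤ c₀.1 ∧ 0 ≤ c₀.2 ∧ √(c₀.1 ^ 2 + c₀.2 ^ 2) < R ∧ ∃ m < 0,
      (∀ c' ∈ S, m ≤ Dd L R f h s₀ c') ∧
      ∀ p q, 0 ≤ p → q ≤ L → p < s₀ → s₀ < q → (∀ r ∈ Ioo p q, Veff f h c₀.1 c₀.2 r < 1) →
        2 * (∫ r in Ioo p q, √(1 - Veff f h c₀.1 c₀.2 r)) -
          2 * π * (R - √(c₀.1 ^ 2 + c₀.2 ^ 2)) ≤ m := by
  have hpi := Real.pi_pos
  set E : Set ℝ := Dd L R f h s₀ '' S with hE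
  have hbdd : BddBelow E := by
    refine ⟨-(2 * π * R), ?_⟩
    rintro _ ⟨c, hc, rfl⟩
    have h0 := actW_nonneg L (Veff f h c.1 c.2) s₀
    have h4 := Real.sqrt_nonneg (c.1 ^ 2 + c.2 ^ 2)
    unfold Dd
    nlinarith
  obtain ⟨c₁, hc₁, hc₁'⟩ := hneg
  have hne : E.Nonempty := ⟨_, c₁, hc₁, rfl⟩
  set m := sInf E with hm
  have hmneg : m < 0 := by
    have : m ≤ Dd L R f h s₀ c₁ := csInf_le hbdd ⟨c₁, hc₁, rfl⟩
    linarith
  obtain ⟨u, -, hu, huE⟩ := exists_seq_tendsto_sInf hne hbdd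
  choose d hdS hdu using huE
  have hle1 : ∀ c : ℝ × ℝ, |c.1| ≤ √(c.1 ^ 2 + c.2 ^ 2) := fun c =>
    Real.abs_le_sqrt (by nlinarith [sq_nonneg c.2])
  have hle2 : ∀ c : ℝ × ℝ, |c.2| ≤ √(c.1 ^ 2 + c.2 ^ 2) := fun c =>
    Real.abs_le_sqrt (by nlinarith [sq_nonneg c.1])
  have hdK : ∀ n, d n ∈ Icc ((0 : ℝ), (0 : ℝ)) (R, R) := by
    intro n
    obtain ⟨h1, h2, h3⟩ := hS (hdS n)
    have h4 := (abs_le.mp (hle1 (d n))).2
    have h5 := (abs_le.mp (hle2 (d n))).2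
    exact ⟨⟨h1.le, h2.le⟩, ⟨by simp only; linarith, by simp only; linarith⟩⟩
  obtain ⟨c₀, hc₀, φ, hφ, hlim⟩ := isCompact_Icc.tendsto_subseq hdK
  set c : ℕ → ℝ × ℝ := d ∘ φ with hcdef
  have hcS : ∀ n, c n ∈ S := fun n => hdS (φ n)
  have hcT : ∀ n, c n ∈ RegD R := fun n => hS (hcS n)
  have hD : Tendsto (fun n => Dd L R f h s₀ (c n)) atTop (𝓝 m) := by
    have : (fun n => Dd L R f h s₀ (c n)) = u ∘ φ := by
      funext n; exact hdu (φ n)
    rw [this]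
    exact hu.comp hφ.tendsto_atTop
  have e1 : Tendsto (fun n => (c n).1) atTop (𝓝 c₀.1) := (continuous_fst.tendsto c₀).comp hlim
  have e2 : Tendsto (fun n => (c n).2) atTop (𝓝 c₀.2) := (continuous_snd.tendsto c₀).comp hlim
  have eJ : Tendsto (fun n => √((c n).1 ^ 2 + (c n).2 ^ 2)) atTop
      (𝓝 (√(c₀.1 ^ 2 + c₀.2 ^ 2))) := ((e1.pow 2).add (e2.pow 2)).sqrt
  have hA : Tendsto (fun n => actW L (Veff f h (c n).1 (c n).2) ((fun _ : ℝ × ℝ => s₀) (c n))) atTop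
      (𝓝 (m + 2 * π * (R - √(c₀.1 ^ 2 + c₀.2 ^ 2)))) := by
    have e := hD.add ((((tendsto_const_nhds (x := R)).sub eJ).const_mul (2 * π)))
    refine e.congr fun n => ?_
    unfold Dd
    ring
  have hsum : √(c₀.1 ^ 2 + c₀.2 ^ 2) ≤ R :=
    le_of_tendsto eJ (Eventually.of_forall fun n => (hcT n).2.2.le)
  have hsum' : √(c₀.1 ^ 2 + c₀.2 ^ 2) < R := by
    rcases lt_or_eq_of_le hsum with hh | hh
    · exact hh
    exfalso
    have := ge_of_tendsto hA (Eventually.of_forall fun n =>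
      actW_nonneg L (Veff f h (c n).1 (c n).2) _)
    rw [hh] at this
    simp at this
    linarith
  refine ⟨c₀, mem_closure_of_tendsto hlim (Eventually.of_forall hcS), hc₀.1.1, hc₀.1.2, hsum', m,
    hmneg, fun c' hc' => csInf_le hbdd ⟨c', hc', rfl⟩, ?_⟩
  intro p q hp hq hps hsq hV
  have key := LS.lsc_act (s := fun _ => s₀) hP hlim hA (p := p) (q := q) (x' := s₀) (y' := s₀)
    hp hq hV hps le_rfl hsq (Eventually.of_forall fun n => ⟨le_rfl, le_rfl⟩)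
  linarith

theorem pair_self {L : ℝ} {g : ℝ → ℝ} (hg : Rot.IsProfile L g) : Pair L g g :=
  H804US.pair_of_profile ⟨hg, hg⟩

theorem sqrt_two_sq (t : ℝ) : (t / √2) ^ 2 + (t / √2) ^ 2 = t ^ 2 := by
  rw [div_pow, Real.sq_sqrt (by norm_num : (0 : ℝ) ≤ 2)]
  ring

theorem veff_self (g : ℝ → ℝ) (c₁ c₂ r : ℝ) : Veff g g c₁ c₂ r = (c₁ ^ 2 + c₂ ^ 2) / g r ^ 2 := by
  unfold Veff
  rw [div_pow, div_pow, ← add_div]

/-- The action defect of the pair `(g, g)` depends on the norm only. -/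
theorem Dd_self {L R s₀ : ℝ} {g : ℝ → ℝ} {c c' : ℝ × ℝ} (h : c.1 ^ 2 + c.2 ^ 2 = c'.1 ^ 2 + c'.2 ^ 2) :
    Dd L R g g s₀ c = Dd L R g g s₀ c' := by
  have e : Veff g g c.1 c.2 = Veff g g c'.1 c'.2 := by
    funext r
    rw [veff_self, veff_self, h]
  unfold Dd
  rw [e, h]

/-- The diagonal of the quarter disc. -/
def diag (R : ℝ) : Set (ℝ × ℝ) := {c | c ∈ RegD R ∧ c.1 = c.2}

/-- The minimum for the pair `(g, g)`. -/
theorem exists_min_self {L : ℝ} {g : ℝ → ℝ} (hg : Rot.IsProfile L g) {R s₀ : ℝ} (hR : 0 < R)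
    (hL : π * R < L) (hs0 : 0 < s₀) (hsL : s₀ < L) (hgs : R < g s₀)
    (hneg : ∃ c ∈ RegD R, Dd L R g g s₀ c < 0) :
    ∃ c ∈ RegD R, c.1 = c.2 ∧ Dd L R g g s₀ c < 0 ∧
      ∀ c' ∈ RegD R, Dd L R g g s₀ c ≤ Dd L R g g s₀ c' := by
  have hP := pair_self hg
  have hpi := Real.pi_pos
  have hproj : ∀ c' ∈ RegD R, ∃ c'' ∈ diag R, Dd L R g g s₀ c'' = Dd L R g g s₀ c' := by
    intro c' hc'
    have h0 : 0 < c'.1 ^ 2 + c'.2 ^ 2 := by
      have := hc'.1
      positivity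
    have h1 := Real.sqrt_pos.2 h0
    have h2 : (√(c'.1 ^ 2 + c'.2 ^ 2) / √2) ^ 2 + (√(c'.1 ^ 2 + c'.2 ^ 2) / √2) ^ 2 =
        c'.1 ^ 2 + c'.2 ^ 2 := by
      rw [sqrt_two_sq, Real.sq_sqrt h0.le]
    refine ⟨(√(c'.1 ^ 2 + c'.2 ^ 2) / √2, √(c'.1 ^ 2 + c'.2 ^ 2) / √2), ⟨⟨?_, ?_, ?_⟩, rfl⟩,
      Dd_self h2⟩
    · simp only
      positivity
    · simp only
      positivity
    · simp only
      rw [h2]
      exact hc'.2.2
  obtain ⟨c₁, hc₁, hc₁'⟩ := hneg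
  obtain ⟨c₂, hc₂, hc₂'⟩ := hproj c₁ hc₁
  obtain ⟨c₀, hcl, h01, h02, hsum, m, hm, hmin, hint⟩ := min_seq hP (diag R) (fun c hc => hc.1)
    ⟨c₂, hc₂, by rw [hc₂']; exact hc₁'⟩
  have h12 : c₀.1 = c₀.2 := by
    have h1 : IsClosed {c : ℝ × ℝ | c.1 = c.2} := isClosed_eq continuous_fst continuous_snd
    exact closure_minimal (s := diag R) (fun c hc => hc.2) h1 hcl
  rcases eq_or_lt_of_le h01 with h01' | h01'
  · exfalso
    have h10 : c₀.1 = 0 := h01'.symm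
    have h20 : c₀.2 = 0 := by rw [← h12, h10]
    have key := hint 0 L le_rfl le_rfl hs0 hsL (fun r _ => by rw [h10, h20]; unfold Veff; simp)
    rw [h10, h20] at key
    unfold Veff at key
    simp only [zero_div, ne_eq, OfNat.ofNat_ne_zero, not_false_eq_true, zero_pow, add_zero,
      sub_zero, Real.sqrt_zero, Real.sqrt_one] at key
    have hI : ∫ _ in Ioo 0 L, (1 : ℝ) = L := by
      rw [setIntegral_const]
      simp [hg.pos.le]
    rw [hI] at key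
    nlinarith
  · have hc₀ : c₀ ∈ RegD R := ⟨h01', h12 ▸ h01', hsum⟩
    obtain ⟨p, q, hp, hps, hsq, hq, -, -, hw, hin⟩ := WS.well_spec hP h01' (h12 ▸ h01') hs0 hsL
      (veff_lt hR hgs hgs hsum)
    have key := hint p q hp.le hq.le hps hsq hin
    have hle : Dd L R g g s₀ c₀ ≤ m := by
      unfold Dd actW
      rw [hw]
      exact key
    refine ⟨c₀, hc₀, h12, hle.trans_lt hm, fun c' hc' => ?_⟩
    obtain ⟨c'', hc'', he⟩ := hproj c' hc'
    rw [← he]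
    exact hle.trans (hmin c'' hc'')

/-- The minimum for a pair, given the bounds for the two edges. -/
theorem exists_min {L : ℝ} {f h : ℝ → ℝ} (hf : H804US.IsProfileUS L f h) {R s₀ : ℝ} (hR : 0 < R)
    (hL : π * R < L) (hs0 : 0 < s₀) (hsL : s₀ < L) (hfs : R < f s₀) (hhs : R < h s₀)
    (hEf : ∀ c ∈ RegD R, 0 ≤ Dd L R f f s₀ c) (hEh : ∀ c ∈ RegD R, 0 ≤ Dd L R h h s₀ c)
    (hneg : ∃ c ∈ RegD R, Dd L R f h s₀ c < 0) :
    ∃ c ∈ RegD R, Dd L R f h s₀ c < 0 ∧ ∀ c' ∈ RegD R, Dd L R f h s₀ c ≤ Dd L R f h s₀ c' := by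
  have hP := H804US.pair_of_profile hf
  have hpi := Real.pi_pos
  obtain ⟨c₀, -, h01, h02, hsum, m, hm, hmin, hint⟩ := min_seq hP (RegD R) (fun c hc => hc) hneg
  -- an edge
  have edge : ∀ g : ℝ → ℝ, Rot.IsProfile L g → R < g s₀ → (∀ c ∈ RegD R, 0 ≤ Dd L R g g s₀ c) →
      ∀ t, 0 < t → √(c₀.1 ^ 2 + c₀.2 ^ 2) = t → (∀ r, Veff f h c₀.1 c₀.2 r = (t / g r) ^ 2) →
      False := by
    intro g hg hgs hE t ht hJ hV
    have h1 : 0 < t / √2 := by positivity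
    have h2 := sqrt_two_sq t
    have h3 : √((t / √2) ^ 2 + (t / √2) ^ 2) = t := by
      rw [h2, Real.sqrt_sq ht.le]
    have hc : (t / √2, t / √2) ∈ RegD R := ⟨h1, h1, by simp only; rw [h3, ← hJ]; exact hsum⟩
    have h4 := hE _ hc
    have h5 : ∀ r, Veff g g (t / √2) (t / √2) r = Veff f h c₀.1 c₀.2 r := by
      intro r
      rw [hV, veff_self, h2, div_pow]
    obtain ⟨p, q, hp, hps, hsq, hq, -, -, hw, hin⟩ := WS.well_spec (pair_self hg) h1 h1 hs0 hsL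
      (veff_lt (c := (t / √2, t / √2)) hR hgs hgs hc.2.2)
    have key := hint p q hp.le hq.le hps hsq (fun r hr => by rw [← h5]; exact hin r hr)
    unfold Dd actW at h4
    simp only at h4
    rw [hw, h3] at h4
    simp only [h5] at h4
    rw [hJ] at key
    linarith
  rcases eq_or_lt_of_le h01 with h01' | h01'
  · have h10 : c₀.1 = 0 := h01'.symm
    exfalso
    rcases eq_or_lt_of_le h02 with h02' | h02'
    · have h20 : c₀.2 = 0 := h02'.symm
      have key := hint 0 L le_rfl le_rfl hs0 hsL (fun r _ => by rw [h10, h20]; unfold Veff; simp)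
      rw [h10, h20] at key
      unfold Veff at key
      simp only [zero_div, ne_eq, OfNat.ofNat_ne_zero, not_false_eq_true, zero_pow, add_zero,
        sub_zero, Real.sqrt_zero, Real.sqrt_one] at key
      have hI : ∫ _ in Ioo 0 L, (1 : ℝ) = L := by
        rw [setIntegral_const]
        simp [hf.pf.pos.le]
      rw [hI] at key
      nlinarith
    · refine edge h hf.ph hhs hEh c₀.2 h02' ?_ ?_
      · rw [h10]
        simp only [ne_eq, OfNat.ofNat_ne_zero, not_false_eq_true, zero_pow, zero_add]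
        exact Real.sqrt_sq h02
      · intro r
        unfold Veff
        rw [h10]
        simp
  · rcases eq_or_lt_of_le h02 with h02' | h02'
    · exfalso
      have h20 : c₀.2 = 0 := h02'.symm
      refine edge f hf.pf hfs hEf c₀.1 h01' ?_ ?_
      · rw [h20]
        simp only [ne_eq, OfNat.ofNat_ne_zero, not_false_eq_true, zero_pow, add_zero]
        exact Real.sqrt_sq h01
      · intro r
        unfold Veff
        rw [h20]
        simp
    · have hc₀ : c₀ ∈ RegD R := ⟨h01', h02', hsum⟩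
      obtain ⟨p, q, hp, hps, hsq, hq, -, -, hw, hin⟩ := WS.well_spec hP h01' h02' hs0 hsL
        (veff_lt hR hfs hhs hsum)
      have key := hint p q hp.le hq.le hps hsq hin
      have hle : Dd L R f h s₀ c₀ ≤ m := by
        unfold Dd actW
        rw [hw]
        exact key
      exact ⟨c₀, hc₀, hle.trans_lt hm, fun c' hc' => hle.trans (hmin c' hc')⟩

end H804RP.Mn
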