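import Pool.Agent.H804.US.Act
import Pool.Agent.H804.RP.Mn
import Pool.Agent.H804.RP.Defs

/-!
# A negative minimum of the action defect: a solution with a short half period
-/

open Real Set MeasureTheory Filter Topology
open scoped ContDiff
open Pool.Agent.H206R2.Rot2 (Veff well actW)
open Pool.Agent.H206R2
open H738CP
open H738CP.CL (crit_le)
open H738CP.CG (crit_ge)

namespace H804RP.Cr

open H804US.Mn (RegD Dd isOpen_RegD actW_nonneg veff_lt)

theorem crit {L : ℝ} {f h : ℝ → ℝ} (hf : IsProfileRP L f h) {R : ℝ} (hR : 0 < R)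
    (hfs : R < f (L / 2)) (hhs : R < h (L / 2)) {c : ℝ × ℝ} (hc : c ∈ RegD R)
    (hDneg : Dd L R f h (L / 2) c < 0)
    (hmin : ∀ c' ∈ RegD R, Dd L R f h (L / 2) c ≤ Dd L R f h (L / 2) c') :
    ∃ (r : ℝ → ℝ) (T : ℝ), 0 < T ∧ T < π * R ∧ ContDiff ℝ 2 r ∧ (∀ t, 0 < r t ∧ r t < L) ∧
      (∀ t, deriv (deriv r) t = f (r t) * deriv f (r t) * (c.1 / f (r t) ^ 2) ^ 2
        + h (r t) * deriv h (r t) * (c.2 / h (r t) ^ 2) ^ 2) ∧
      (∀ t, deriv r t ^ 2 + Veff f h c.1 c.2 (r t) = 1) ∧ (∀ t, r (t + T) = L - r t) ∧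
      (∫ t in (0 : ℝ)..T, c.1 / f (r t) ^ 2 = π * (c.1 / √(c.1 ^ 2 + c.2 ^ 2))) ∧
      (∫ t in (0 : ℝ)..T, c.2 / h (r t) ^ 2 = π * (c.2 / √(c.1 ^ 2 + c.2 ^ 2))) := by
  have hfc : Continuous f := hf.us.pf.smooth.continuous
  have hhc : Continuous h := hf.us.ph.smooth.continuous
  have hLpos := hf.us.pf.pos
  have hpi := Real.pi_pos
  have hPair := H804US.pair_of_profile hf.us
  have hs0 : 0 < L / 2 := by linarith
  have hsL : L / 2 < L := by linarith
  unfold Dd at hDneg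
  obtain ⟨hc1, hc2, hc3⟩ := id hc
  set J : ℝ := √(c.1 ^ 2 + c.2 ^ 2) with hJ
  have hJ2 : J ^ 2 = c.1 ^ 2 + c.2 ^ 2 := Real.sq_sqrt (by positivity)
  have hJpos : 0 < J := Real.sqrt_pos.2 (by positivity)
  have hs1 : Veff f h c.1 c.2 (L / 2) < 1 := veff_lt hR hfs hhs hc3
  obtain ⟨p, q, hp, hps, hsq, hq, hVp, hVq, hw, hin⟩ := WS.well_spec hPair hc1 hc2 hs0 hsL hs1
  have hVs : ∀ x, Veff f h c.1 c.2 (L - x) = Veff f h c.1 c.2 x := by
    intro x
    unfold Veff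
    rw [hf.fsym, hf.hsym]
  have hqp : q = L - p := by
    rcases lt_trichotomy q (L - p) with h1 | h1 | h1
    · have h2 := hin (L - q) ⟨by linarith, by linarith⟩
      rw [hVs, hVq] at h2
      exact absurd h2 (lt_irrefl _)
    · exact h1
    · have h2 := hin (L - p) ⟨by linarith, by linarith⟩
      rw [hVs, hVp] at h2
      exact absurd h2 (lt_irrefl _)
  -- the target function
  have hΓ1 : HasDerivAt (fun x => (fun c : ℝ × ℝ => 2 * π * (R - √(c.1 ^ 2 + c.2 ^ 2))) (x, c.2))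
      (-(2 * π * (c.1 / J))) c.1 := by
    have h1 : HasDerivAt (fun x : ℝ => x ^ 2 + c.2 ^ 2) (2 * c.1) c.1 := by
      have := (hasDerivAt_pow 2 c.1).add_const (c.2 ^ 2)
      simpa using this
    have h2 := h1.sqrt (by positivity)
    have h3 := (h2.const_sub R).const_mul (2 * π)
    refine h3.congr_deriv ?_
    rw [← hJ]
    field_simp
  have hΓ2 : HasDerivAt (fun x => (fun c : ℝ × ℝ => 2 * π * (R - √(c.1 ^ 2 + c.2 ^ 2))) (c.1, x))
      (-(2 * π * (c.2 / J))) c.2 := by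
    have h1 : HasDerivAt (fun x : ℝ => c.1 ^ 2 + x ^ 2) (2 * c.2) c.2 := by
      have := (hasDerivAt_pow 2 c.2).const_add (c.1 ^ 2)
      simpa using this
    have h2 := h1.sqrt (by positivity)
    have h3 := (h2.const_sub R).const_mul (2 * π)
    refine h3.congr_deriv ?_
    rw [← hJ]
    field_simp
  have hscont : ContinuousAt (fun _ : ℝ × ℝ => L / 2) c := continuousAt_const
  have hmin' : ∀ᶠ c' in 𝓝 c, actW L (Veff f h c.1 c.2) ((fun _ : ℝ × ℝ => L / 2) c) -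
      (fun c : ℝ × ℝ => 2 * π * (R - √(c.1 ^ 2 + c.2 ^ 2))) c ≤
      actW L (Veff f h c'.1 c'.2) ((fun _ : ℝ × ℝ => L / 2) c') -
      (fun c : ℝ × ℝ => 2 * π * (R - √(c.1 ^ 2 + c.2 ^ 2))) c' := by
    filter_upwards [(isOpen_RegD R).mem_nhds hc] with c' hc'
    exact hmin c' hc'
  obtain ⟨hint, hΦ1, hΦ2, hp', hq'⟩ := crit_le (s := fun _ => L / 2)
    (Γ := fun c : ℝ × ℝ => 2 * π * (R - √(c.1 ^ 2 + c.2 ^ 2))) hPair hc1 hc2 hscont hΓ1 hΓ2 hmin'
    hp hps hsq hq hVp hVq hw hin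
  obtain ⟨hΨ1, hΨ2⟩ := crit_ge (s := fun _ => L / 2)
    (Γ := fun c : ℝ × ℝ => 2 * π * (R - √(c.1 ^ 2 + c.2 ^ 2))) hPair hc1 hc2 hscont hΓ1 hΓ2 hmin'
    hp hps hsq hq hVp hVq hw hin hint hp' hq'
  have hE1 := le_antisymm hΦ1 hΨ1
  have hE2 := le_antisymm hΦ2 hΨ2
  have hpq : p < q := hps.trans hsq
  have hsubL : ∀ x ∈ Icc p q, 0 < x ∧ x < L := fun x hx => ⟨hp.trans_le hx.1, hx.2.trans_lt hq⟩
  have hfne : ∀ x ∈ Icc p q, f x ≠ 0 := fun x hx =>
    (hf.us.pf.fpos x (hsubL x hx).1 (hsubL x hx).2).ne'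
  have hhne : ∀ x ∈ Icc p q, h x ≠ 0 := fun x hx =>
    (hf.us.ph.fpos x (hsubL x hx).1 (hsubL x hx).2).ne'
  have hVsm : ContDiffOn ℝ ∞ (Veff f h c.1 c.2) (Ioo 0 L) := by
    have h1 : ContDiffOn ℝ ∞ (fun r => c.1 / f r) (Ioo 0 L) :=
      contDiffOn_const.div hf.us.pf.smooth.contDiffOn fun x hx => (hf.us.pf.fpos x hx.1 hx.2).ne'
    have h2 : ContDiffOn ℝ ∞ (fun r => c.2 / h r) (Ioo 0 L) :=
      contDiffOn_const.div hf.us.ph.smooth.contDiffOn fun x hx => (hf.us.ph.fpos x hx.1 hx.2).ne'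
    exact (h1.pow 2).add (h2.pow 2)
  obtain ⟨r, T, hT, hTeq, hr, hrI, hr2, hr1, hrT, hrint⟩ :=
    Os.oscillator_sym hp hpq hq hVsm hVp hVq hp' hq' hin hqp (fun x _ => hVs x)
  have hrpos : ∀ t, 0 < r t ∧ r t < L := fun t => hsubL (r t) ⟨(hrI t).1, (hrI t).2⟩
  -- the length of half an oscillation
  have hTlt : T < π * R := by
    have e : ∀ x ∈ Ioo p q, 1 / √(1 - Veff f h c.1 c.2 x) = √(1 - Veff f h c.1 c.2 x)
        + (c.1 * (c.1 / (f x ^ 2 * √(1 - Veff f h c.1 c.2 x)))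
        + c.2 * (c.2 / (h x ^ 2 * √(1 - Veff f h c.1 c.2 x)))) := by
      intro x hx
      have hx1 : 0 < 1 - Veff f h c.1 c.2 x := by linarith [hin x hx]
      have hsq := Real.sq_sqrt hx1.le
      have hsp := Real.sqrt_pos.2 hx1
      have hfx := hfne x ⟨hx.1.le, hx.2.le⟩
      have hhx := hhne x ⟨hx.1.le, hx.2.le⟩
      have hVx : Veff f h c.1 c.2 x = (c.1 / f x) ^ 2 + (c.2 / h x) ^ 2 := rfl
      set y := √(1 - Veff f h c.1 c.2 x) with hy
      have h3 : y ^ 2 = 1 - ((c.1 / f x) ^ 2 + (c.2 / h x) ^ 2) := by rw [hsq, hVx]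
      have h4 : 1 = y ^ 2 + (c.1 ^ 2 / f x ^ 2 + c.2 ^ 2 / h x ^ 2) := by
        rw [h3, div_pow, div_pow]; ring
      have h5 : 1 / y = (y ^ 2 + (c.1 ^ 2 / f x ^ 2 + c.2 ^ 2 / h x ^ 2)) / y := by rw [← h4]
      rw [h5]
      field_simp
    have hbd : ∀ {g : ℝ → ℝ} (d : ℝ), Continuous g → (∀ x ∈ Icc p q, g x ≠ 0) →
        IntegrableOn (fun x => d / (g x ^ 2 * √(1 - Veff f h c.1 c.2 x))) (Ioo p q) := by
      intro g d hg hg0
      have hcont : ContinuousOn (fun x => d / g x ^ 2) (Icc p q) :=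
        continuousOn_const.div (hg.continuousOn.pow 2) fun x hx => pow_ne_zero 2 (hg0 x hx)
      obtain ⟨M, hM⟩ := isCompact_Icc.exists_bound_of_continuousOn hcont
      have h1 : IntegrableOn (fun x => (d / g x ^ 2) * (1 / √(1 - Veff f h c.1 c.2 x)))
          (Ioo p q) := by
        refine Integrable.bdd_mul (c := M) hint
          ((hcont.mono Ioo_subset_Icc_self).aestronglyMeasurable measurableSet_Ioo) ?_
        exact (ae_restrict_iff' measurableSet_Ioo).2 (Filter.Eventually.of_forall fun x hx =>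
          hM x (Ioo_subset_Icc_self hx))
      refine h1.congr_fun (fun x _ => ?_) measurableSet_Ioo
      simp only [mul_one_div, div_div]
    have i1 := hbd c.1 hfc hfne
    have i2 := hbd c.2 hhc hhne
    have i0 : IntegrableOn (fun x => √(1 - Veff f h c.1 c.2 x)) (Ioo p q) := by
      have h1 := (hint.sub ((i1.const_mul c.1).add (i2.const_mul c.2)))
      refine h1.congr_fun (fun x hx => ?_) measurableSet_Ioo
      simp only [Pi.sub_apply, Pi.add_apply]
      linarith [e x hx]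
    have h1 : ∫ x in Ioo p q, 1 / √(1 - Veff f h c.1 c.2 x) =
        (∫ x in Ioo p q, √(1 - Veff f h c.1 c.2 x)) +
        (c.1 * (∫ x in Ioo p q, c.1 / (f x ^ 2 * √(1 - Veff f h c.1 c.2 x))) +
        c.2 * (∫ x in Ioo p q, c.2 / (h x ^ 2 * √(1 - Veff f h c.1 c.2 x)))) := by
      have j12 : IntegrableOn (fun x => c.1 * (c.1 / (f x ^ 2 * √(1 - Veff f h c.1 c.2 x)))
          + c.2 * (c.2 / (h x ^ 2 * √(1 - Veff f h c.1 c.2 x)))) (Ioo p q) :=
        (i1.const_mul c.1).add (i2.const_mul c.2)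
      rw [setIntegral_congr_fun measurableSet_Ioo e, integral_add i0 j12,
        integral_add (i1.const_mul c.1) (i2.const_mul c.2), integral_const_mul, integral_const_mul]
    have h2 : actW L (Veff f h c.1 c.2) (L / 2) =
        2 * ∫ x in Ioo p q, √(1 - Veff f h c.1 c.2 x) := by
      rw [actW, hw]
    rw [h2] at hDneg
    rw [hTeq, h1]
    have g1 : c.1 * (2 * ∫ x in Ioo p q, c.1 / (f x ^ 2 * √(1 - Veff f h c.1 c.2 x))) =
        c.1 * (2 * π * (c.1 / J)) := by rw [hE1]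
    have g2 : c.2 * (2 * ∫ x in Ioo p q, c.2 / (h x ^ 2 * √(1 - Veff f h c.1 c.2 x))) =
        c.2 * (2 * π * (c.2 / J)) := by rw [hE2]
    have g3 : c.1 * (2 * π * (c.1 / J)) + c.2 * (2 * π * (c.2 / J)) = 2 * π * J := by
      have : c.1 * (2 * π * (c.1 / J)) + c.2 * (2 * π * (c.2 / J)) =
          2 * π * ((c.1 ^ 2 + c.2 ^ 2) / J) := by field_simp
      rw [this, ← hJ2]
      field_simp
    nlinarith
  refine ⟨r, T, hT, hTlt, hr, hrpos, ?_, fun t => by rw [hr1]; ring, hrT, ?_, ?_⟩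
  · intro t
    have hfx := hfne (r t) ⟨(hrI t).1, (hrI t).2⟩
    have hhx := hhne (r t) ⟨(hrI t).1, (hrI t).2⟩
    have d1 : HasDerivAt (fun r => c.1 / f r) (-(c.1 * deriv f (r t)) / f (r t) ^ 2) (r t) := by
      have := (hasDerivAt_const (r t) c.1).div
        ((hf.us.pf.smooth.differentiable (by simp)).differentiableAt (x := r t)).hasDerivAt hfx
      refine this.congr_deriv ?_
      ring
    have d2 : HasDerivAt (fun r => c.2 / h r) (-(c.2 * deriv h (r t)) / h (r t) ^ 2) (r t) := by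
      have := (hasDerivAt_const (r t) c.2).div
        ((hf.us.ph.smooth.differentiable (by simp)).differentiableAt (x := r t)).hasDerivAt hhx
      refine this.congr_deriv ?_
      ring
    have d3 : HasDerivAt (Veff f h c.1 c.2) (2 * (c.1 / f (r t)) * (-(c.1 * deriv f (r t)) / f (r t) ^ 2)
        + 2 * (c.2 / h (r t)) * (-(c.2 * deriv h (r t)) / h (r t) ^ 2)) (r t) := by
      have := (d1.pow 2).add (d2.pow 2)
      refine this.congr_deriv ?_
      norm_num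
    rw [hr2, d3.deriv]
    field_simp
    ring
  · rw [hrint (fun x => c.1 / f x ^ 2)
      (continuousOn_const.div (hfc.continuousOn.pow 2) fun x hx => pow_ne_zero 2 (hfne x hx))
      (fun x _ => by simp only [hf.fsym])]
    simp only [div_div]
    linarith
  · rw [hrint (fun x => c.2 / h x ^ 2)
      (continuousOn_const.div (hhc.continuousOn.pow 2) fun x hx => pow_ne_zero 2 (hhne x hx))
      (fun x _ => by simp only [hf.hsym])]
    simp only [div_div]
    linarith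

end H804RP.Cr
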