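import Mathlib

/-!
# Monotone functions with the same moments
-/

open Real Set MeasureTheory Filter Topology

namespace H804RP.Eq

theorem le_of_equi {ℓ : ℝ} {u v : ℝ → ℝ} (hu : Continuous u) (hv : Continuous v)
    (mu : MonotoneOn u (Icc 0 ℓ)) (mv : MonotoneOn v (Icc 0 ℓ))
    (hψ : ∀ ψ : ℝ → ℝ, Continuous ψ → ∫ r in (0 : ℝ)..ℓ, ψ (u r) = ∫ r in (0 : ℝ)..ℓ, ψ (v r)) :
    ∀ r ∈ Ioo 0 ℓ, u r ≤ v r := by
  intro r₁ hr₁
  by_contra hlt
  push Not at hlt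
  obtain ⟨r₂, h12, h2l, hv2⟩ : ∃ r₂, r₁ < r₂ ∧ r₂ < ℓ ∧ v r₂ < u r₁ := by
    have h0 : Tendsto v (𝓝[>] r₁) (𝓝 (v r₁)) := hv.continuousAt.mono_left nhdsWithin_le_nhds
    have h1 : ∀ᶠ x in 𝓝[>] r₁, v x < u r₁ := h0.eventually_lt_const hlt
    have h2 : ∀ᶠ x in 𝓝[>] r₁, x ∈ Ioo r₁ ℓ := Ioo_mem_nhdsGT hr₁.2
    obtain ⟨x, hx1, hx2⟩ := (h1.and h2).exists
    exact ⟨x, hx2.1, hx2.2, hx1⟩
  set a := v r₂ with ha
  set b := u r₁ with hb
  have hab : 0 < b - a := by linarith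
  set ψ : ℝ → ℝ := fun y => min 1 (max 0 ((y - a) / (b - a))) with hψd
  have hψc : Continuous ψ := by
    rw [hψd]
    fun_prop
  have h0 : ∀ y, 0 ≤ ψ y := fun y => le_min zero_le_one (le_max_left _ _)
  have h1 : ∀ y, ψ y ≤ 1 := fun y => min_le_left _ _
  have h2 : ∀ y, b ≤ y → ψ y = 1 := by
    intro y hy
    apply min_eq_left
    refine le_max_of_le_right ?_
    rw [le_div_iff₀ hab]
    linarith
  have h3 : ∀ y, y ≤ a → ψ y = 0 := by
    intro y hy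
    have : max 0 ((y - a) / (b - a)) = 0 := by
      apply max_eq_left
      exact div_nonpos_of_nonpos_of_nonneg (by linarith) hab.le
    simp only [hψd]
    rw [this]
    simp
  have hk := hψ ψ hψc
  have iu : ∀ x y : ℝ, IntervalIntegrable (fun r => ψ (u r)) volume x y := fun x y =>
    (hψc.comp hu).intervalIntegrable x y
  have iv : ∀ x y : ℝ, IntervalIntegrable (fun r => ψ (v r)) volume x y := fun x y =>
    (hψc.comp hv).intervalIntegrable x y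
  have hl : ℓ - r₁ ≤ ∫ r in (0 : ℝ)..ℓ, ψ (u r) := by
    rw [← intervalIntegral.integral_add_adjacent_intervals (iu 0 r₁) (iu r₁ ℓ)]
    have e1 : 0 ≤ ∫ r in (0 : ℝ)..r₁, ψ (u r) :=
      intervalIntegral.integral_nonneg hr₁.1.le fun _ _ => h0 _
    have e2 : ∫ r in r₁..ℓ, (1 : ℝ) ≤ ∫ r in r₁..ℓ, ψ (u r) := by
      apply intervalIntegral.integral_mono_on hr₁.2.le (by simp) (iu _ _)
      intro x hx
      rw [h2]
      exact mu ⟨hr₁.1.le, hr₁.2.le⟩ ⟨hr₁.1.le.trans hx.1, hx.2⟩ hx.1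
    rw [intervalIntegral.integral_const, smul_eq_mul, mul_one] at e2
    linarith
  have hr : ∫ r in (0 : ℝ)..ℓ, ψ (v r) ≤ ℓ - r₂ := by
    rw [← intervalIntegral.integral_add_adjacent_intervals (iv 0 r₂) (iv r₂ ℓ)]
    have h20 : 0 ≤ r₂ := hr₁.1.le.trans h12.le
    have e1 : ∫ r in (0 : ℝ)..r₂, ψ (v r) ≤ ∫ r in (0 : ℝ)..r₂, (0 : ℝ) := by
      apply intervalIntegral.integral_mono_on h20 (iv _ _) (by simp)
      intro x hx
      rw [h3]
      exact mv ⟨hx.1, hx.2.trans h2l.le⟩ ⟨h20, h2l.le⟩ hx.2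
    have e2 : ∫ r in r₂..ℓ, ψ (v r) ≤ ∫ r in r₂..ℓ, (1 : ℝ) := by
      apply intervalIntegral.integral_mono_on h2l.le (iv _ _) (by simp)
      intro x _
      exact h1 _
    rw [intervalIntegral.integral_const, smul_eq_mul] at e1 e2
    linarith
  linarith

theorem eq_of_equi {ℓ : ℝ} (hl : 0 < ℓ) {u v : ℝ → ℝ} (hu : Continuous u) (hv : Continuous v)
    (mu : MonotoneOn u (Icc 0 ℓ)) (mv : MonotoneOn v (Icc 0 ℓ))
    (hψ : ∀ ψ : ℝ → ℝ, Continuous ψ → ∫ r in (0 : ℝ)..ℓ, ψ (u r) = ∫ r in (0 : ℝ)..ℓ, ψ (v r)) :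
    ∀ r ∈ Icc 0 ℓ, u r = v r := by
  intro r hr
  have h1 : IsClosed {r | u r = v r} := isClosed_eq hu hv
  have h2 : r ∈ closure (Ioo 0 ℓ) := by rw [closure_Ioo hl.ne]; exact hr
  exact closure_minimal (fun x hx => le_antisymm (le_of_equi hu hv mu mv hψ x hx)
    (le_of_equi hv hu mv mu (fun ψ h => (hψ ψ h).symm) x hx)) h1 h2

theorem poly_of_moments {ℓ : ℝ} {u v : ℝ → ℝ} (hu : Continuous u) (hv : Continuous v)
    (hm : ∀ k : ℕ, ∫ r in (0 : ℝ)..ℓ, u r ^ k = ∫ r in (0 : ℝ)..ℓ, v r ^ k) (p : Polynomial ℝ) :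
    ∫ r in (0 : ℝ)..ℓ, p.eval (u r) = ∫ r in (0 : ℝ)..ℓ, p.eval (v r) := by
  have hpc : ∀ p : Polynomial ℝ, Continuous (fun x => p.eval x) := fun p => p.continuous
  induction p using Polynomial.induction_on' with
  | add p q hp hq =>
    simp only [Polynomial.eval_add]
    rw [intervalIntegral.integral_add, intervalIntegral.integral_add, hp, hq]
    · exact ((hpc p).comp hv).intervalIntegrable _ _
    · exact ((hpc q).comp hv).intervalIntegrable _ _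
    · exact ((hpc p).comp hu).intervalIntegrable _ _
    · exact ((hpc q).comp hu).intervalIntegrable _ _
  | monomial k a =>
    simp only [Polynomial.eval_monomial]
    rw [intervalIntegral.integral_const_mul, intervalIntegral.integral_const_mul, hm]

theorem equi_of_moments {ℓ M : ℝ} (hl : 0 < ℓ) {u v : ℝ → ℝ} (hu : Continuous u) (hv : Continuous v)
    (hu' : ∀ r ∈ Icc 0 ℓ, u r ∈ Icc 0 M) (hv' : ∀ r ∈ Icc 0 ℓ, v r ∈ Icc 0 M)
    (hm : ∀ k : ℕ, ∫ r in (0 : ℝ)..ℓ, u r ^ k = ∫ r in (0 : ℝ)..ℓ, v r ^ k) (ψ : ℝ → ℝ)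
    (hψ : Continuous ψ) :
    ∫ r in (0 : ℝ)..ℓ, ψ (u r) = ∫ r in (0 : ℝ)..ℓ, ψ (v r) := by
  have key : ∀ ε > 0, |(∫ r in (0 : ℝ)..ℓ, ψ (u r)) - ∫ r in (0 : ℝ)..ℓ, ψ (v r)| ≤
      ε * (2 * ℓ) := by
    intro ε hε
    obtain ⟨p, hp⟩ := exists_polynomial_near_of_continuousOn 0 M ψ hψ.continuousOn ε hε
    have hpc : Continuous (fun x => p.eval x) := p.continuous
    have h1 := poly_of_moments hu hv hm p
    have h2 : (∫ r in (0 : ℝ)..ℓ, ψ (u r)) - ∫ r in (0 : ℝ)..ℓ, ψ (v r) =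
        (∫ r in (0 : ℝ)..ℓ, (ψ (u r) - p.eval (u r))) -
        ∫ r in (0 : ℝ)..ℓ, (ψ (v r) - p.eval (v r)) := by
      rw [intervalIntegral.integral_sub, intervalIntegral.integral_sub, h1]
      · ring
      · exact (hψ.comp hv).intervalIntegrable _ _
      · exact (hpc.comp hv).intervalIntegrable _ _
      · exact (hψ.comp hu).intervalIntegrable _ _
      · exact (hpc.comp hu).intervalIntegrable _ _
    have h3 : ∀ w : ℝ → ℝ, (∀ r ∈ Icc 0 ℓ, w r ∈ Icc 0 M) →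
        |∫ r in (0 : ℝ)..ℓ, (ψ (w r) - p.eval (w r))| ≤ ε * ℓ := by
      intro w hw
      have := intervalIntegral.norm_integral_le_of_norm_le_const (a := (0 : ℝ)) (b := ℓ)
        (f := fun r => ψ (w r) - p.eval (w r)) (C := ε) (fun r hr => by
          rw [uIoc_of_le hl.le] at hr
          have := hp (w r) (hw r (Ioc_subset_Icc_self hr))
          rw [Real.norm_eq_abs, abs_sub_comm]
          exact this.le)
      rwa [sub_zero, abs_of_pos hl, Real.norm_eq_abs] at this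
    rw [h2]
    calc _ ≤ |∫ r in (0 : ℝ)..ℓ, (ψ (u r) - p.eval (u r))| +
        |∫ r in (0 : ℝ)..ℓ, (ψ (v r) - p.eval (v r))| := abs_sub _ _
      _ ≤ ε * (2 * ℓ) := by
        have a1 := h3 u hu'
        have a2 := h3 v hv'
        linarith
  have h5 : |(∫ r in (0 : ℝ)..ℓ, ψ (u r)) - ∫ r in (0 : ℝ)..ℓ, ψ (v r)| ≤ 0 := by
    apply le_of_forall_pos_le_add
    intro ε hε
    have h6 := key (ε / (2 * ℓ)) (by positivity)
    have h7 : ε / (2 * ℓ) * (2 * ℓ) = ε := by field_simp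
    linarith
  have h6 := abs_nonpos_iff.1 h5
  linarith

/-- Continuous functions that are monotone on `[0, ℓ]` and have the same moments agree there. -/
theorem eq_of_moments {ℓ M : ℝ} (hl : 0 < ℓ) {u v : ℝ → ℝ} (hu : Continuous u) (hv : Continuous v)
    (hu' : ∀ r ∈ Icc 0 ℓ, u r ∈ Icc 0 M) (hv' : ∀ r ∈ Icc 0 ℓ, v r ∈ Icc 0 M)
    (mu : MonotoneOn u (Icc 0 ℓ)) (mv : MonotoneOn v (Icc 0 ℓ))
    (hm : ∀ k : ℕ, ∫ r in (0 : ℝ)..ℓ, u r ^ k = ∫ r in (0 : ℝ)..ℓ, v r ^ k) :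
    ∀ r ∈ Icc 0 ℓ, u r = v r :=
  eq_of_equi hl hu hv mu mv (equi_of_moments hl hu hv hu' hv' hm)

end H804RP.Eq
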