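import Pool.Agent.H804.RP.Main
import Pool.Agent.H804.US.Low
import Pool.Agent.H804.US.Fin

/-!
# The round metric of the real projective spaces
-/

open Real Set MeasureTheory Filter Topology Quaternion
open scoped ContDiff
open H738CP H804OP H804US

namespace H804RP.Low

theorem profile_round : IsProfileRP π Real.sin Real.sin :=
  ⟨H804US.Fin.profile_round, fun r => Real.sin_pi_sub r, fun r => Real.sin_pi_sub r⟩

theorem double {X : Type*} [AddGroup X] {γ : ℝ → X} {T : ℝ} (h : ∀ t, γ (t + T) = -γ t) (t : ℝ) :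
    γ (t + 2 * T) = γ t := by
  have h1 : t + 2 * T = (t + T) + T := by ring
  rw [h1, h, h, neg_neg]

theorem low_US {n : ℕ} {γ : ℝ → EuclideanSpace ℂ (Fin n) × ℝ} {v T : ℝ} (hv : 0 < v) (hT : 0 < T)
    (hγ : IsGeodesicUS π Real.sin Real.sin v γ)
    (hper : (∀ t, γ (t + T) = -γ t) ∨ ∀ t, γ (t + T) = γ t) : π ≤ v * T := by
  rcases hper with hper | hper
  · have := H804US.Low.low_US hv (by linarith : 0 < 2 * T) hγ (double hper)
    linarith
  · have := H804US.Low.low_US hv hT hγ hper
    have := Real.pi_pos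
    linarith

theorem low_HS {n : ℕ} {γ : ℝ → (Fin n → ℍ[ℝ]) × ℝ} {v T : ℝ} (hv : 0 < v) (hT : 0 < T)
    (hγ : IsGeodesicHS π Real.sin Real.sin v γ)
    (hper : (∀ t, γ (t + T) = -γ t) ∨ ∀ t, γ (t + T) = γ t) : π ≤ v * T := by
  rcases hper with hper | hper
  · have := H804US.Low.low_HS hv (by linarith : 0 < 2 * T) hγ (double hper)
    linarith
  · have := H804US.Low.low_HS hv hT hγ hper
    have := Real.pi_pos
    linarith

theorem low_OS {A : Fin 9 → E16 →L[ℝ] E16} {γ : ℝ → E16 × ℝ} {v T : ℝ} (hv : 0 < v) (hT : 0 < T)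
    (hγ : IsGeodesicOS A π Real.sin Real.sin v γ)
    (hper : (∀ t, γ (t + T) = -γ t) ∨ ∀ t, γ (t + T) = γ t) : π ≤ v * T := by
  rcases hper with hper | hper
  · have := H804US.Low.low_OS hv (by linarith : 0 < 2 * T) hγ (double hper)
    linarith
  · have := H804US.Low.low_OS hv hT hγ hper
    have := Real.pi_pos
    linarith

end H804RP.Low
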