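import Pool.Agent.H804.RP.Rg2
import Pool.Agent.H804.RP.Low

/-!
# The optimal systolic ratio and the optimal metrics
-/

open Real Set MeasureTheory Filter Topology Quaternion
open scoped ContDiff
open H738CP H804OP H804US
open H804OP.Cl H804OP.Sl

namespace H804RP.Fin

/-- The profiles of the metric of constant curvature for which all non-contractible closed geodesics have
length `ℓ`. -/
def IsRound (ℓ L : ℝ) (f h : ℝ → ℝ) : Prop :=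
  L = ℓ ∧ ∀ r ∈ Icc 0 L, f r = ℓ / π * Real.sin (π * r / ℓ) ∧ h r = ℓ / π * Real.sin (π * r / ℓ)

theorem vol_round {ℓ L : ℝ} {f h : ℝ → ℝ} (hl : 0 < ℓ) (hr : IsRound ℓ L f h) (a b : ℕ) :
    π ^ (a + b + 3) * (∫ r in (0 : ℝ)..L, f r ^ (a + 1) * h r ^ (b + 1)) =
      ℓ ^ (a + b + 3) * ∫ t in (0 : ℝ)..π, Real.sin t ^ (a + b + 2) := by
  obtain ⟨hL, hfh⟩ := hr
  have hpi := Real.pi_pos
  have hL0 : 0 ≤ L := by rw [hL]; exact hl.le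
  have h1 : ∫ r in (0 : ℝ)..L, f r ^ (a + 1) * h r ^ (b + 1) =
      ∫ r in (0 : ℝ)..L, (ℓ / π) ^ (a + b + 2) * Real.sin (r / (ℓ / π)) ^ (a + b + 2) := by
    apply intervalIntegral.integral_congr
    intro r hr
    rw [uIcc_of_le hL0] at hr
    simp only
    obtain ⟨h2, h3⟩ := hfh r hr
    have h4 : r / (ℓ / π) = π * r / ℓ := by field_simp
    rw [h2, h3, h4]
    ring
  rw [h1, intervalIntegral.integral_const_mul,
    intervalIntegral.integral_comp_div (fun x => Real.sin x ^ (a + b + 2)) (by positivity), hL,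
    zero_div, show ℓ / (ℓ / π) = π by field_simp, smul_eq_mul]
  have h5 : (ℓ / π) ^ (a + b + 3) = ℓ ^ (a + b + 3) / π ^ (a + b + 3) := div_pow _ _ _
  calc _ = π ^ (a + b + 3) * (ℓ / π) ^ (a + b + 3) *
        ∫ t in (0 : ℝ)..π, Real.sin t ^ (a + b + 2) := by ring
    _ = _ := by
      rw [h5]
      field_simp

theorem gen {L : ℝ} {f h : ℝ → ℝ} (hf : IsProfileRP L f h) {n : ℕ} (hn : 2 ≤ n) (a b : ℕ)
    {ℓ : ℝ} (hl : 0 < ℓ)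
    (hge : ∀ (γ : ℝ → EuclideanSpace ℂ (Fin n) × ℝ) (T : ℝ), 0 < T →
      IsGeodesicUS L f h 1 γ → (∀ t, γ (t + T) = -γ t) → ℓ ≤ T) :
    ℓ ^ (a + b + 3) * (∫ t in (0 : ℝ)..π, Real.sin t ^ (a + b + 2)) ≤
      π ^ (a + b + 3) * (∫ r in (0 : ℝ)..L, f r ^ (a + 1) * h r ^ (b + 1)) ∧
    (π ^ (a + b + 3) * (∫ r in (0 : ℝ)..L, f r ^ (a + 1) * h r ^ (b + 1)) =
      ℓ ^ (a + b + 3) * (∫ t in (0 : ℝ)..π, Real.sin t ^ (a + b + 2)) ↔ IsRound ℓ L f h) := by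
  have hpi := Real.pi_pos
  have hW : 0 < ∫ t in (0 : ℝ)..π, Real.sin t ^ (a + b + 2) := integral_sin_pow_pos _
  refine ⟨?_, fun heq => ?_, fun hr => vol_round hl hr a b⟩
  · obtain ⟨γ, T, hT, hγ, hper, hle⟩ := Main.key hf hn a b
    have h1 := hge γ T hT hγ hper
    have h2 : ℓ ^ (a + b + 3) ≤ T ^ (a + b + 3) := pow_le_pow_left₀ hl.le h1 _
    exact (mul_le_mul_of_nonneg_right h2 hW.le).trans hle
  · have hR : 0 < ℓ / π := by positivity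
    have e : π * (ℓ / π) = ℓ := by field_simp
    obtain ⟨h1, h2⟩ := Rg.rigid hf hn a b hR (fun γ T hT hγ hper => by
      rw [e]
      exact hge γ T hT hγ hper) (by
      rw [div_pow, div_mul_eq_mul_div, le_div_iff₀ (by positivity), ← heq]
      linarith)
    refine ⟨by rw [h1, e], fun r hr => ?_⟩
    have h3 : π * r / ℓ = r / (ℓ / π) := by field_simp
    rw [h3]
    exact h2 r hr

theorem main_US {L : ℝ} {f h : ℝ → ℝ} (hf : IsProfileRP L f h) {n : ℕ} (hn : 2 ≤ n)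
    {ℓ : ℝ} (hl : 0 < ℓ)
    (hge : ∀ (γ : ℝ → EuclideanSpace ℂ (Fin n) × ℝ) (T : ℝ), 0 < T →
      IsGeodesicUS L f h 1 γ → (∀ t, γ (t + T) = -γ t) → ℓ ≤ T) :
    ℓ ^ (2 * n) * (∫ t in (0 : ℝ)..π, Real.sin t ^ (2 * n - 1)) ≤
      π ^ (2 * n) * (∫ r in (0 : ℝ)..L, f r * h r ^ (2 * n - 2)) ∧
    (π ^ (2 * n) * (∫ r in (0 : ℝ)..L, f r * h r ^ (2 * n - 2)) =
      ℓ ^ (2 * n) * (∫ t in (0 : ℝ)..π, Real.sin t ^ (2 * n - 1)) ↔ IsRound ℓ L f h) := by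
  have h1 := gen hf hn 0 (2 * n - 3) hl hge
  have e1 : 0 + (2 * n - 3) + 3 = 2 * n := by omega
  have e2 : 0 + (2 * n - 3) + 2 = 2 * n - 1 := by omega
  have e3 : 2 * n - 3 + 1 = 2 * n - 2 := by omega
  rw [e1, e2, e3] at h1
  simpa using h1

theorem main_HS {L : ℝ} {f h : ℝ → ℝ} (hf : IsProfileRP L f h) {n : ℕ} (hn : 2 ≤ n)
    {ℓ : ℝ} (hl : 0 < ℓ)
    (hge : ∀ (γ : ℝ → (Fin n → ℍ[ℝ]) × ℝ) (T : ℝ), 0 < T →
      IsGeodesicHS L f h 1 γ → (∀ t, γ (t + T) = -γ t) → ℓ ≤ T) :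
    ℓ ^ (4 * n) * (∫ t in (0 : ℝ)..π, Real.sin t ^ (4 * n - 1)) ≤
      π ^ (4 * n) * (∫ r in (0 : ℝ)..L, f r ^ 3 * h r ^ (4 * n - 4)) ∧
    (π ^ (4 * n) * (∫ r in (0 : ℝ)..L, f r ^ 3 * h r ^ (4 * n - 4)) =
      ℓ ^ (4 * n) * (∫ t in (0 : ℝ)..π, Real.sin t ^ (4 * n - 1)) ↔ IsRound ℓ L f h) := by
  have h1 := gen hf (n := 2) le_rfl 2 (4 * n - 5) hl (fun γ T hT hγ hper => by
    obtain ⟨γ', hγ', hper'⟩ := Main.embedHS hn hγ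
    exact hge γ' T hT hγ' (hper' T hper))
  have e1 : 2 + (4 * n - 5) + 3 = 4 * n := by omega
  have e2 : 2 + (4 * n - 5) + 2 = 4 * n - 1 := by omega
  have e3 : 4 * n - 5 + 1 = 4 * n - 4 := by omega
  rw [e1, e2, e3] at h1
  exact h1

theorem main_OS {A : Fin 9 → E16 →L[ℝ] E16} (hA : IsClifford A) {L : ℝ} {f h : ℝ → ℝ}
    (hf : IsProfileRP L f h) {ℓ : ℝ} (hl : 0 < ℓ)
    (hge : ∀ (γ : ℝ → E16 × ℝ) (T : ℝ), 0 < T →
      IsGeodesicOS A L f h 1 γ → (∀ t, γ (t + T) = -γ t) → ℓ ≤ T) :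
    ℓ ^ 16 * (∫ t in (0 : ℝ)..π, Real.sin t ^ 15) ≤
      π ^ 16 * (∫ r in (0 : ℝ)..L, f r ^ 7 * h r ^ 8) ∧
    (π ^ 16 * (∫ r in (0 : ℝ)..L, f r ^ 7 * h r ^ 8) =
      ℓ ^ 16 * (∫ t in (0 : ℝ)..π, Real.sin t ^ 15) ↔ IsRound ℓ L f h) := by
  obtain ⟨e, he, he1⟩ := Sl.exists_e hA
  exact gen hf (n := 2) le_rfl 6 7 hl (fun γ T hT hγ hper => by
    obtain ⟨γ', hγ', hper'⟩ := Main.embedOS hA he he1 hf.us hγ
    exact hge γ' T hT hγ' (hper' T hper))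

end H804RP.Fin
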