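import Pool.Agent.H804.RP.Main
import Pool.Agent.H804.US.Rg
import Pool.Agent.H804.OP.Rig3

/-!
# The equality case: the action of the round metric
-/

open Real Set MeasureTheory Filter Topology
open scoped ContDiff
open Pool.Agent.H206R2.Rot2 (Veff well actW)
open Pool.Agent.H206R2
open H738CP
open H804OP.Rig (Vm zero_of_integral)

namespace H804RP.Rg

open H804US (IsProfileUS IsGeodesicUS)
open H804US.Mn (RegD Dd actW_nonneg)
open H804US.Rg (Gd)

/-- The bounds for the actions when the half-turn geodesics have length at least `π R`. -/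
theorem bound_limit {L : ℝ} {f h : ℝ → ℝ} (hf : IsProfileRP L f h) {n : ℕ} (hn : 2 ≤ n) {R : ℝ}
    (hR : 0 < R)
    (hge : ∀ (γ : ℝ → EuclideanSpace ℂ (Fin n) × ℝ) (T : ℝ), 0 < T →
      IsGeodesicUS L f h 1 γ → (∀ t, γ (t + T) = -γ t) → π * R ≤ T) :
    π * R ≤ L ∧ (∀ c ∈ RegD R, Gd R c ≤ actW L (Veff f f c.1 c.2) (L / 2)) ∧
    ∀ c ∈ RegD R, Gd R c ≤ actW L (Veff f h c.1 c.2) (L / 2) := by
  have hpi := Real.pi_pos
  have hLpos := hf.us.pf.pos
  have hb : ∀ R', 0 < R' → R' < R → (∀ c ∈ RegD R', 0 ≤ Dd L R' f f (L / 2) c) ∧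
      ∀ c ∈ RegD R', 0 ≤ Dd L R' f h (L / 2) c := by
    intro R' h0 h1
    obtain ⟨-, -, -, k1, k2⟩ := Act.defect_bound hf hn h0 (fun γ T hT hγ hper => by
      have := hge γ T hT hγ hper
      have h6 : π * R' < π * R := mul_lt_mul_of_pos_left h1 hpi
      linarith)
    exact ⟨k1, k2⟩
  have key : ∀ A : ℝ → ℝ × ℝ → ℝ, (∀ c, 0 ≤ A 0 c) →
      (∀ R', 0 < R' → R' < R → ∀ c ∈ RegD R', 2 * π * (R' - √(c.1 ^ 2 + c.2 ^ 2)) ≤ A 0 c) →
      ∀ c ∈ RegD R, Gd R c ≤ A 0 c := by
    intro A hA0 hAb c hc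
    by_contra hcon
    push Not at hcon
    unfold Gd at hcon
    set J := √(c.1 ^ 2 + c.2 ^ 2) with hJ
    have hJ0 : 0 ≤ J := Real.sqrt_nonneg _
    have hA0' := hA0 c
    obtain ⟨R', h1, h2⟩ : ∃ R' : ℝ, R' < R ∧ A 0 c < 2 * π * (R' - J) := by
      refine ⟨R - (2 * π * (R - J) - A 0 c) / (4 * π), ?_, ?_⟩
      · have : 0 < (2 * π * (R - J) - A 0 c) / (4 * π) := div_pos (by linarith) (by positivity)
        linarith
      · have e : 2 * π * (R - (2 * π * (R - J) - A 0 c) / (4 * π) - J) =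
            2 * π * (R - J) - (2 * π * (R - J) - A 0 c) / 2 := by
          field_simp
          ring
        rw [e]
        linarith
    have h3 : J < R' := by
      have h4 : 0 < 2 * π * (R' - J) := hA0'.trans_lt h2
      have h5 : 0 < R' - J := (mul_pos_iff_of_pos_left (by positivity)).1 h4
      linarith
    have hR' : 0 < R' := hJ0.trans_lt h3
    have := hAb R' hR' h1 c ⟨hc.1, hc.2.1, h3⟩
    rw [← hJ] at this
    linarith
  refine ⟨?_, ?_, ?_⟩
  · obtain ⟨γ, k1, k2⟩ := Act.meridian f h hLpos hn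
    exact hge γ L hLpos k1 k2
  · refine key (fun _ c => actW L (Veff f f c.1 c.2) (L / 2)) (fun c => actW_nonneg _ _ _) ?_
    intro R' h0 h1 c hc
    have := (hb R' h0 h1).1 c hc
    unfold Dd at this
    linarith
  · refine key (fun _ c => actW L (Veff f h c.1 c.2) (L / 2)) (fun c => actW_nonneg _ _ _) ?_
    intro R' h0 h1 c hc
    have := (hb R' h0 h1).2 c hc
    unfold Dd at this
    linarith

/-- The upper bound for the moments of the action. -/
theorem upper_int {L : ℝ} {f : ℝ → ℝ} (hf : Rot.IsProfile L f) {R₀ : ℝ} (hR : 0 < R₀) (m : ℕ) :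
    ∫ c in (0:ℝ)..R₀, Rot.actA L f c * c ^ m ≤
      2 * ((∫ x in (0:ℝ)..1, √(1 - x ^ 2) * x ^ m) * ∫ r in (0:ℝ)..L, f r ^ (m + 1)) := by
  have hfc : Continuous f := hf.smooth.continuous
  have hfm : Measurable f := hfc.measurable
  set B := ∫ x in (0:ℝ)..1, √(1 - x ^ 2) * x ^ m with hB
  set μ : Measure ℝ := volume.restrict (Ioo 0 L) with hμ
  set ν : Measure ℝ := volume.restrict (Ioc 0 R₀) with hν
  have hact : Continuous (Rot.actA L f) := (Rot.TE.actA_continuousOn hf).1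
  have hmeas : Measurable (fun p : ℝ × ℝ => √(1 - (p.2 / f p.1) ^ 2) * p.2 ^ m) := by
    fun_prop
  have hint : Integrable (fun p : ℝ × ℝ => √(1 - (p.2 / f p.1) ^ 2) * p.2 ^ m) (μ.prod ν) := by
    have hb : ∀ᵐ p ∂(μ.prod ν), ‖√(1 - (p.2 / f p.1) ^ 2) * p.2 ^ m‖ ≤ R₀ ^ m := by
      have : μ.prod ν = (volume.prod volume).restrict (Ioo 0 L ×ˢ Ioc 0 R₀) := by
        rw [hμ, hν, Measure.prod_restrict]
      rw [this]
      filter_upwards [ae_restrict_mem (measurableSet_Ioo.prod measurableSet_Ioc)] with p hp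
      rw [norm_mul]
      have h2 : ‖p.2 ^ m‖ ≤ R₀ ^ m := by
        rw [norm_pow, Real.norm_eq_abs, abs_of_pos hp.2.1]
        exact pow_le_pow_left₀ hp.2.1.le hp.2.2 m
      calc _ ≤ 1 * R₀ ^ m := mul_le_mul (Rot.TE.sq_bd _) h2 (norm_nonneg _) zero_le_one
        _ = R₀ ^ m := one_mul _
    exact Integrable.of_bound hmeas.aestronglyMeasurable _ hb
  have hswap := integral_integral_swap (f := fun r c => √(1 - (c / f r) ^ 2) * c ^ m)
    (μ := μ) (ν := ν) hint
  have h2 : ∫ c in (0:ℝ)..R₀, Rot.actA L f c * c ^ m =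
      2 * ∫ r, ∫ c, √(1 - (c / f r) ^ 2) * c ^ m ∂ν ∂μ := by
    rw [hswap, intervalIntegral.integral_of_le hR.le, ← integral_const_mul]
    apply integral_congr_ae
    apply Filter.Eventually.of_forall
    intro c
    simp only
    unfold Rot.actA
    rw [integral_mul_const, mul_assoc]
  have hIm : Integrable (fun r => ∫ c, √(1 - (c / f r) ^ 2) * c ^ m ∂ν) μ := hint.integral_prod_left
  have hfi : Integrable (fun r => f r ^ (m + 1) * B) μ := by
    have h3 : IntegrableOn (fun r => f r ^ (m + 1) * B) (Icc 0 L) :=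
      (Continuous.continuousOn (by fun_prop)).integrableOn_Icc
    exact h3.mono_set Ioo_subset_Icc_self
  have h3 : ∫ r, ∫ c, √(1 - (c / f r) ^ 2) * c ^ m ∂ν ∂μ ≤ ∫ r, f r ^ (m + 1) * B ∂μ := by
    apply integral_mono_ae hIm hfi
    have hae : ∀ᵐ r ∂μ, r ∈ Ioo 0 L := ae_restrict_mem measurableSet_Ioo
    filter_upwards [hae] with r hr
    have := Rot.TE.I_le (hf.fpos r hr.1 hr.2) hR m
    rw [intervalIntegral.integral_of_le hR.le] at this
    exact this
  have h4 : ∫ r, f r ^ (m + 1) * B ∂μ = B * ∫ r in (0:ℝ)..L, f r ^ (m + 1) := by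
    rw [integral_mul_const, intervalIntegral.integral_of_le hf.pos.le, hμ,
      integral_Ioc_eq_integral_Ioo, mul_comm]
  rw [h2, ← h4]
  linarith

/-- The action is that of the round metric. -/
theorem act_eq {L : ℝ} {f : ℝ → ℝ} (hf : Rot.IsProfile L f) {R : ℝ} (hR : 0 < R) (m : ℕ)
    (hA : ∀ c, 0 ≤ c → c ≤ R → 2 * π * (R - c) ≤ Rot.actA L f c)
    (hV : ∫ r in (0 : ℝ)..L, f r ^ (m + 1) ≤ R ^ (m + 2) * ∫ t in (0 : ℝ)..π, Real.sin t ^ (m + 1)) :
    ∀ c ∈ Icc 0 R, Rot.actA L f c = 2 * π * (R - c) := by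
  have hpi := Real.pi_pos
  have hact : Continuous (Rot.actA L f) := (Rot.TE.actA_continuousOn hf).1
  have h1 := upper_int hf hR m
  have h2 : ∫ c in (0:ℝ)..R, 2 * π * (R - c) * c ^ m =
      2 * π * R ^ (m + 2) / ((m + 1) * (m + 2)) := Rot.TE.lower_int m
  have hVW := Rot.TE.VW m
  have hBW := Rot.TE.B_eq m
  set B := ∫ x in (0:ℝ)..1, √(1 - x ^ 2) * x ^ m with hB
  set V := ∫ x in (0:ℝ)..π, Real.sin x ^ (m + 1) with hVd
  set W := ∫ x in (0:ℝ)..(π / 2), Real.sin x ^ m with hW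
  have hWpos : 0 < W := by
    apply intervalIntegral.intervalIntegral_pos_of_pos_on
      (Continuous.intervalIntegrable (by fun_prop) _ _) _ (by positivity)
    intro x hx
    have := Real.sin_pos_of_pos_of_lt_pi hx.1 (by linarith [hx.2, Real.pi_pos])
    positivity
  have hB0 : 0 < B := by
    rw [hBW]
    positivity
  have h3 : 2 * (B * (R ^ (m + 2) * V)) = 2 * π * R ^ (m + 2) / ((m + 1) * (m + 2)) := by
    have : V * W = π / (m + 1) := hVW
    rw [hBW]
    calc 2 * (1 / ((m : ℝ) + 2) * W * (R ^ (m + 2) * V)) =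
        2 * (1 / ((m : ℝ) + 2)) * R ^ (m + 2) * (V * W) := by ring
      _ = _ := by
        rw [this]
        field_simp
  have h4 : 2 * (B * ∫ r in (0 : ℝ)..L, f r ^ (m + 1)) ≤ 2 * (B * (R ^ (m + 2) * V)) := by
    have := mul_le_mul_of_nonneg_left hV hB0.le
    linarith
  have hFc : Continuous fun c => (Rot.actA L f c - 2 * π * (R - c)) * c ^ m := by fun_prop
  have hFn : ∀ c ∈ Icc 0 R, 0 ≤ (Rot.actA L f c - 2 * π * (R - c)) * c ^ m := by
    intro c hc
    have := hA c hc.1 hc.2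
    exact mul_nonneg (by linarith) (pow_nonneg hc.1 m)
  have hF0 : ∫ c in (0 : ℝ)..R, (Rot.actA L f c - 2 * π * (R - c)) * c ^ m = 0 := by
    apply le_antisymm
    · have e : ∀ c : ℝ, (Rot.actA L f c - 2 * π * (R - c)) * c ^ m =
          Rot.actA L f c * c ^ m - 2 * π * (R - c) * c ^ m := fun c => by ring
      simp_rw [e]
      rw [intervalIntegral.integral_sub (Continuous.intervalIntegrable (by fun_prop) _ _)
        (Continuous.intervalIntegrable (by fun_prop) _ _), h2]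
      linarith
    · exact intervalIntegral.integral_nonneg hR.le hFn
  have hz := zero_of_integral hR hFc hFn hF0
  have hz' : ∀ c ∈ Ioc 0 R, Rot.actA L f c = 2 * π * (R - c) := by
    intro c hc
    have := hz c (Ioc_subset_Icc_self hc)
    rcases mul_eq_zero.1 this with h5 | h5
    · linarith
    · exact absurd h5 (pow_pos hc.1 m).ne'
  have hcl : IsClosed {c | Rot.actA L f c = 2 * π * (R - c)} :=
    isClosed_eq hact (by fun_prop)
  intro c hc
  have h5 : c ∈ closure (Ioc 0 R) := by rw [closure_Ioc hR.ne]; exact hc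
  exact closure_minimal (fun x hx => hz' x hx) hcl h5

end H804RP.Rg
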