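import Pool.Agent.H804.RP.Rg
import Pool.Agent.H804.RP.Eq

/-!
# The equality case: the metric is round
-/

open Real Set MeasureTheory Filter Topology
open scoped ContDiff
open Pool.Agent.H206R2.Rot2 (Veff well actW)
open Pool.Agent.H206R2
open H738CP
open H804OP.Rig (Vm)

namespace H804RP.Rg

open H804US (IsProfileUS IsGeodesicUS)
open H804US.Mn (RegD Dd actW_nonneg)
open H804US.Rg (Gd)

theorem prof_zero {L : ℝ} {f : ℝ → ℝ} (hf : Rot.IsProfile L f) : f 0 = 0 := by
  have := hf.odd_zero 0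
  rw [neg_zero] at this
  linarith

theorem prof_L {L : ℝ} {f : ℝ → ℝ} (hf : Rot.IsProfile L f) : f L = 0 := by
  have := hf.odd_L 0
  rw [add_zero, sub_zero] at this
  linarith

theorem prof_nonneg {L : ℝ} {f : ℝ → ℝ} (hf : Rot.IsProfile L f) : ∀ r ∈ Icc 0 L, 0 ≤ f r := by
  intro r hr
  rcases eq_or_lt_of_le hr.1 with h | h
  · rw [← h, prof_zero hf]
  rcases eq_or_lt_of_le hr.2 with h' | h'
  · rw [h', prof_L hf]
  exact (hf.fpos r h h').le

/-- The profile is monotone up to the middle. -/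
theorem mono_half {L : ℝ} {f : ℝ → ℝ} (hf : Rot.IsProfile L f) {R : ℝ}
    (hle : ∀ r ∈ Icc 0 L, f r ≤ R)
    (hW : ∀ c ∈ RegD R, Gd R c ≤ actW L (Veff f f c.1 c.2) (L / 2))
    (hA : ∀ c ∈ Icc 0 R, Rot.actA L f c = 2 * π * (R - c)) :
    MonotoneOn f (Icc 0 (L / 2)) := by
  have hL := hf.pos
  have hfc : Continuous f := hf.smooth.continuous
  intro r₁ h1 r₂ h2 h12
  by_contra hlt
  push Not at hlt
  have hr12 : r₁ < r₂ := by
    rcases eq_or_lt_of_le h12 with h | h
    · rw [h] at hlt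
      exact absurd hlt (lt_irrefl _)
    · exact h
  have h2L : r₂ < L := by linarith [h2.2]
  have hf2 : 0 < f r₂ := hf.fpos r₂ (lt_of_le_of_lt h1.1 hr12) h2L
  have h10 : 0 < r₁ := by
    rcases eq_or_lt_of_le h1.1 with h | h
    · rw [← h, prof_zero hf] at hlt
      linarith
    · exact h
  obtain ⟨J, hJ2, hJ1⟩ := exists_between hlt
  have hJ0 : 0 < J := hf2.trans hJ2
  have hJR : J < R := hJ1.trans_le (hle r₁ ⟨h1.1, by linarith⟩)
  have hsq := Mn.sqrt_two_sq J
  have hnorm : √((J / √2) ^ 2 + (J / √2) ^ 2) = J := by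
    rw [hsq, Real.sqrt_sq hJ0.le]
  have hc : (J / √2, J / √2) ∈ RegD R := by
    refine ⟨by simp only; positivity, by simp only; positivity, ?_⟩
    simp only
    rw [hnorm]
    exact hJR
  have hV : Veff f f (J / √2) (J / √2) = fun r => (J / f r) ^ 2 := by
    funext r
    rw [Mn.veff_self, hsq, div_pow]
  have k1 := hW _ hc
  unfold Gd at k1
  simp only at k1
  rw [hnorm, hV] at k1
  have k2 := hA J ⟨hJ0.le, hJR.le⟩
  set g : ℝ → ℝ := fun r => √(1 - (J / f r) ^ 2) with hg
  have hg0 : ∀ r, 0 ≤ g r := fun r => Real.sqrt_nonneg _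
  have hgm : Measurable g := by
    have := hfc.measurable
    fun_prop
  have hb : ∀ r, |g r| ≤ 1 := by
    intro r
    rw [abs_of_nonneg (hg0 r)]
    exact Real.sqrt_le_one.2 (by nlinarith [sq_nonneg (J / f r)])
  have hint : ∀ x y : ℝ, IntervalIntegrable g volume x y := by
    intro x y
    rw [intervalIntegrable_iff]
    exact Measure.integrableOn_of_bounded (by simp) hgm.aestronglyMeasurable
      (Filter.Eventually.of_forall fun r => by simpa using hb r)
  -- the well lies to the right of `r₂`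
  have hwell : well L (fun r => (J / f r) ^ 2) (L / 2) ⊆ Ioo r₂ L := by
    intro r hr
    have h3 := hr r right_mem_uIcc
    refine ⟨?_, h3.2.1⟩
    by_contra h4
    push Not at h4
    have h5 : r₂ ∈ uIcc (L / 2) r := by
      rw [uIcc_of_ge (h4.trans h2.2)]
      exact ⟨h4, h2.2⟩
    have h6 := (hr r₂ h5).2.2
    have h7 : 1 < J / f r₂ := by rw [lt_div_iff₀ hf2]; linarith
    nlinarith
  have k3 : actW L (fun r => (J / f r) ^ 2) (L / 2) ≤ 2 * ∫ r in r₂..L, g r := by
    rw [actW, intervalIntegral.integral_of_le h2L.le, integral_Ioc_eq_integral_Ioo]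
    refine mul_le_mul_of_nonneg_left ?_ (by norm_num)
    refine setIntegral_mono_set ?_ (Filter.Eventually.of_forall fun r => hg0 r)
      (Filter.Eventually.of_forall hwell)
    exact Measure.integrableOn_of_bounded (by simp) hgm.aestronglyMeasurable
      (Filter.Eventually.of_forall fun r => by simpa using hb r)
  have k4 : Rot.actA L f J = 2 * ((∫ r in (0 : ℝ)..(r₁ / 2), g r) + (∫ r in (r₁ / 2)..r₂, g r) +
      ∫ r in r₂..L, g r) := by
    rw [intervalIntegral.integral_add_adjacent_intervals (hint _ _) (hint _ _),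
      intervalIntegral.integral_add_adjacent_intervals (hint _ _) (hint _ _), Rot.actA,
      intervalIntegral.integral_of_le hL.le, integral_Ioc_eq_integral_Ioo]
  have k5 : 0 ≤ ∫ r in (0 : ℝ)..(r₁ / 2), g r :=
    intervalIntegral.integral_nonneg (by linarith) fun r _ => hg0 r
  have k6 : 0 < ∫ r in (r₁ / 2)..r₂, g r := by
    refine intervalIntegral.integral_pos (by linarith) ?_ (fun r _ => hg0 r)
      ⟨r₁, ⟨by linarith, h12⟩, ?_⟩
    · have hne : ∀ x ∈ Icc (r₁ / 2) r₂, f x ≠ 0 := fun x hx =>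
        (hf.fpos x (by linarith [hx.1]) (lt_of_le_of_lt hx.2 h2L)).ne'
      exact Real.continuous_sqrt.comp_continuousOn
        (continuousOn_const.sub ((continuousOn_const.div hfc.continuousOn hne).pow 2))
    · apply Real.sqrt_pos.2
      have h3 : 0 < f r₁ := hJ0.trans hJ1
      have h4 : J / f r₁ < 1 := by rwa [div_lt_one h3]
      have h5 : 0 < J / f r₁ := by positivity
      nlinarith
  linarith

/-- Halving the moments of a symmetric function. -/
theorem half_sym {L : ℝ} {g : ℝ → ℝ} (hg : Continuous g) (hs : ∀ r, g (L - r) = g r) :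
    ∫ r in (0 : ℝ)..(L / 2), g r = (1 / 2) * ∫ r in (0 : ℝ)..L, g r := by
  have h1 := intervalIntegral.integral_comp_sub_left (a := (0 : ℝ)) (b := L / 2) g L
  simp only [hs] at h1
  rw [sub_zero, show L - L / 2 = L / 2 by ring] at h1
  have h2 := intervalIntegral.integral_add_adjacent_intervals (hg.intervalIntegrable 0 (L / 2))
    (hg.intervalIntegrable (μ := volume) (L / 2) L)
  rw [← h2, ← h1]
  ring

/-- Equality: the metric is round. -/
theorem rigid {L : ℝ} {f h : ℝ → ℝ} (hf : IsProfileRP L f h) {n : ℕ} (hn : 2 ≤ n) (a b : ℕ)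
    {R : ℝ} (hR : 0 < R)
    (hge : ∀ (γ : ℝ → EuclideanSpace ℂ (Fin n) × ℝ) (T : ℝ), 0 < T →
      IsGeodesicUS L f h 1 γ → (∀ t, γ (t + T) = -γ t) → π * R ≤ T)
    (hV : ∫ r in (0 : ℝ)..L, f r ^ (a + 1) * h r ^ (b + 1) ≤
      R ^ (a + b + 3) * ∫ t in (0 : ℝ)..π, Real.sin t ^ (a + b + 2)) :
    L = π * R ∧ ∀ r ∈ Icc 0 L, f r = R * Real.sin (r / R) ∧ h r = R * Real.sin (r / R) := by
  have hpi := Real.pi_pos
  have hL := hf.us.pf.pos
  have hfc : Continuous f := hf.us.pf.smooth.continuous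
  obtain ⟨hLR, hW1, hW2⟩ := bound_limit hf hn hR hge
  have hA2 : ∀ c ∈ RegD R, Gd R c ≤ 2 * ∫ r in Ioo 0 L, √(1 - Veff f h c.1 c.2 r) :=
    fun c hc => (hW2 c hc).trans (H804US.Act.actW_le hf.us c.1 c.2 (L / 2))
  have hmom := H804US.Rg.moments hf.us hR hA2 (a := a) (b := b) hV
  have hfh : ∀ r ∈ Icc 0 L, f r = h r := H804US.Rg.eq_of_moments hf.us
    (g := fun k => R ^ (k + 3) * ∫ t in (0 : ℝ)..π, Real.sin t ^ (k + 2)) (fun i j => hmom i j)
  have hm : ∀ k : ℕ, ∫ r in (0 : ℝ)..L, f r ^ (k + 2) =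
      R ^ (k + 3) * ∫ t in (0 : ℝ)..π, Real.sin t ^ (k + 2) := by
    intro k
    have h1 := hmom k 0
    unfold Vm at h1
    rw [add_zero] at h1
    rw [← h1]
    apply intervalIntegral.integral_congr
    intro r hr
    rw [uIcc_of_le hL.le] at hr
    simp only
    rw [← hfh r hr]
    ring
  -- the action of the profile
  have hA : ∀ c, 0 ≤ c → c ≤ R → 2 * π * (R - c) ≤ Rot.actA L f c := by
    intro c h0 h1
    rcases eq_or_lt_of_le h0 with h0' | h0'
    · rw [← h0', (Rot.TE.actA_continuousOn hf.us.pf).2.1]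
      linarith
    rcases eq_or_lt_of_le h1 with h1' | h1'
    · rw [h1', sub_self, mul_zero]
      exact (Rot.TE.actA_continuousOn hf.us.pf).2.2 R
    have hsq := Mn.sqrt_two_sq c
    have hnorm : √((c / √2) ^ 2 + (c / √2) ^ 2) = c := by
      rw [hsq, Real.sqrt_sq h0]
    have hc : (c / √2, c / √2) ∈ RegD R := by
      refine ⟨by simp only; positivity, by simp only; positivity, ?_⟩
      simp only
      rw [hnorm]
      exact h1'
    have hVf : Veff f f (c / √2) (c / √2) = fun r => (c / f r) ^ 2 := by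
      funext r
      rw [Mn.veff_self, hsq, div_pow]
    have k1 := hW1 _ hc
    have k2 := H804US.Act.actW_le (f := f) (h := f) ⟨hf.us.pf, hf.us.pf⟩ (c / √2) (c / √2) (L / 2)
    unfold Gd at k1
    simp only at k1
    rw [hnorm] at k1
    rw [hVf] at k1 k2
    exact k1.trans k2
  have hAe : ∀ c ∈ Icc 0 R, Rot.actA L f c = 2 * π * (R - c) :=
    act_eq hf.us.pf hR 1 hA (le_of_eq (hm 0))
  have hLeq : L = π * R := by
    have h1 := hAe 0 ⟨le_rfl, hR.le⟩
    rw [(Rot.TE.actA_continuousOn hf.us.pf).2.1, sub_zero] at h1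
    linarith
  have hle : ∀ r ∈ Icc 0 L, f r ≤ R := by
    intro r hr
    by_contra hlt
    push Not at hlt
    have h0 : 0 < r := by
      rcases eq_or_lt_of_le hr.1 with h | h
      · rw [← h, prof_zero hf.us.pf] at hlt
        linarith
      · exact h
    have h1 : r < L := by
      rcases eq_or_lt_of_le hr.2 with h | h
      · rw [h, prof_L hf.us.pf] at hlt
        linarith
      · exact h
    have h2 := Rot.TE.volume_bound hf.us.pf (n := 3) (by norm_num) hR hA ⟨r, h0, h1, hlt⟩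
    have h3 := hm 0
    norm_num at h2 h3
    linarith
  have hmono := mono_half hf.us.pf hle hW1 hAe
  -- comparison with the round profile
  set v : ℝ → ℝ := fun r => R * Real.sin (r / R) with hv
  have hvc : Continuous v := by fun_prop
  have hl : 0 < L / 2 := by linarith
  have hnn := prof_nonneg hf.us.pf
  have hvI : ∀ r ∈ Icc 0 (L / 2), 0 ≤ v r ∧ v r ≤ R := by
    intro r hr
    have h1 : 0 ≤ r / R := div_nonneg hr.1 hR.le
    have h2 : r / R ≤ π / 2 := by
      rw [div_le_iff₀ hR]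
      have := hr.2
      rw [hLeq] at this
      linarith
    exact ⟨mul_nonneg hR.le (Real.sin_nonneg_of_mem_Icc ⟨h1, by linarith⟩),
      mul_le_of_le_one_right hR.le (Real.sin_le_one _)⟩
  have hvm : MonotoneOn v (Icc 0 (L / 2)) := by
    intro x hx y hy hxy
    apply mul_le_mul_of_nonneg_left _ hR.le
    apply Real.monotoneOn_sin
    · have h1 : 0 ≤ x / R := div_nonneg hx.1 hR.le
      refine ⟨by linarith, ?_⟩
      rw [div_le_iff₀ hR]
      have := hx.2
      rw [hLeq] at this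
      linarith
    · have h1 : 0 ≤ y / R := div_nonneg hy.1 hR.le
      refine ⟨by linarith, ?_⟩
      rw [div_le_iff₀ hR]
      have := hy.2
      rw [hLeq] at this
      linarith
    · exact div_le_div_of_nonneg_right hxy hR.le
  have hk : ∀ k : ℕ, ∫ r in (0 : ℝ)..(L / 2), (f r ^ 2) ^ k = ∫ r in (0 : ℝ)..(L / 2), (v r ^ 2) ^ k := by
    intro k
    rcases k with _ | k
    · simp
    have e1 : ∀ r, (f r ^ 2) ^ (k + 1) = f r ^ (2 * k + 2) := fun r => by rw [← pow_mul]; ring_nf
    have e2 : ∀ r, (v r ^ 2) ^ (k + 1) = R ^ (2 * k + 2) * Real.sin (r / R) ^ (2 * k + 2) := by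
      intro r
      rw [← pow_mul, hv]
      simp only
      rw [mul_pow]
      ring_nf
    simp_rw [e1, e2]
    have h1 := half_sym (L := L) (g := fun r => f r ^ (2 * k + 2)) (hfc.pow _)
      (fun r => by simp only [hf.fsym])
    rw [h1, hm, intervalIntegral.integral_const_mul,
      intervalIntegral.integral_comp_div (fun x => Real.sin x ^ (2 * k + 2)) hR.ne', hLeq,
      show π * R / 2 / R = π / 2 by field_simp, zero_div, H804US.Vol.half, smul_eq_mul]
    ring
  have hsqe := Eq.eq_of_moments (M := R ^ 2) hl (hfc.pow 2) (hvc.pow 2)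
    (fun r hr => ⟨sq_nonneg _, pow_le_pow_left₀ (hnn r ⟨hr.1, by linarith [hr.2]⟩)
      (hle r ⟨hr.1, by linarith [hr.2]⟩) 2⟩)
    (fun r hr => ⟨sq_nonneg _, pow_le_pow_left₀ (hvI r hr).1 (hvI r hr).2 2⟩)
    (fun x hx y hy hxy => pow_le_pow_left₀ (hnn x ⟨hx.1, by linarith [hx.2]⟩) (hmono hx hy hxy) 2)
    (fun x hx y hy hxy => pow_le_pow_left₀ (hvI x hx).1 (hvm hx hy hxy) 2) hk
  have hhalf : ∀ r ∈ Icc 0 (L / 2), f r = R * Real.sin (r / R) := by
    intro r hr
    exact (pow_left_inj₀ (hnn r ⟨hr.1, by linarith [hr.2]⟩) (hvI r hr).1 two_ne_zero).1 (hsqe r hr)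
  have hall : ∀ r ∈ Icc 0 L, f r = R * Real.sin (r / R) := by
    intro r hr
    rcases le_total r (L / 2) with h | h
    · exact hhalf r ⟨hr.1, h⟩
    · have h1 := hhalf (L - r) ⟨by linarith [hr.2], by linarith⟩
      rw [hf.fsym] at h1
      rw [h1, hLeq, show (π * R - r) / R = π - r / R by field_simp, Real.sin_pi_sub]
  exact ⟨hLeq, fun r hr => ⟨hall r hr, by rw [← hfh r hr]; exact hall r hr⟩⟩

end H804RP.Rg
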